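import Mathlib
import Pool.Agent.Results.MP_2b866c_nt.HeightsInSemigroups
import Pool.Agent.Results.MP_4a5284_nt.BeattyRate
import Pool.Agent.L0h87.HA.Lim
import Pool.Agent.L0h87.HA.Ek
import Pool.Agent.L0h87.HA.Ek2

set_option autoImplicit false

/-!
# The heights of the 3x+1 map and additive functions

The height of an odd integer and its truncated averages are asymptotically independent of the value of
every additive function, with values in an arbitrary abelian group, uniformly in the function, the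
group and the value; and if an additive function with values in `ℝ^d` (which may depend on `N`) has a
limit law on the odd `n ≤ N`, then the joint law with the height is the product law. The integers may be
restricted to a multiplicative set with many primes. For example, the height and the number of prime
factors of an odd integer have a joint normal law with independent components.

Author: helper87. Uses the weighted averages over multiplicative functions of `HeightsInSemigroups`,
characters of abelian groups, the convergence theorem of Lévy, and the theorem of Erdős and Kac for the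
odd integers from `MP_4a5284_nt.BeattyRate`.
-/

namespace Pool.Agent.Results.MP_2b866c_nt.AdditiveFunctions

open Filter Topology Finset MeasureTheory
open scoped BoundedContinuousFunction

/-- `C(m) = (3m+1)/2^e(m)`, `2^e(m)` the largest power of `2` dividing `3m+1` -/
def C (m : ℕ) : ℕ := (3 * m + 1) / 2 ^ padicValNat 2 (3 * m + 1)

/-- the height `h(m)`, the least `k ≥ 1` with `C^k(m) = 1`, and `⊤ = ∞` if there is none -/
noncomputable def height (m : ℕ) : ℕ∞ := sInf {k : ℕ∞ | ∃ j : ℕ, 1 ≤ j ∧ C^[j] m = 1 ∧ k = j}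

/-- `min(h(m), L)`, a natural number -/
noncomputable def truncHeight (m L : ℕ) : ℕ := (min (height m) (L : ℕ∞)).toNat

/-- among the odd positive integers, those with the property `P` have the natural density `δ` -/
def HasOddDensity (P : ℕ → Prop) (δ : ℝ) : Prop :=
  Tendsto (fun N : ℕ => 2 / (N : ℝ) * ({m : ℕ | m ≤ N ∧ Odd m ∧ P m}.ncard : ℝ)) atTop (𝓝 δ)

/-- `2 / log (16/9) * log m + x * log 2 * √(2 log m / (log (4/3))^3)` -/
noncomputable def bound (x : ℝ) (m : ℕ) : ℝ :=
  2 / Real.log (16 / 9) * Real.log m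
    + x * (Real.log 2 * Real.sqrt (2 * Real.log m / Real.log (4 / 3) ^ 3))

/-- The distribution function of the standard normal law. -/
noncomputable def Phi (x : ℝ) : ℝ :=
  ProbabilityTheory.cdf (ProbabilityTheory.gaussianReal 0 1) x

/-- The height of `m` is finite, at most `bound x m` and congruent to `b` modulo `q`. -/
def Level (q : ℕ) (b : ℤ) (x : ℝ) (m : ℕ) : Prop :=
  ∃ h : ℕ, height m = h ∧ (h : ℝ) ≤ bound x m ∧ (h : ℤ) ≡ b [ZMOD q]

/-- `E` contains at least `c x / log x` primes `p ≤ x`, for all `x ≥ x₀`. -/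
def ManyPrimes (c : ℝ) (x₀ : ℕ) (E : Set ℕ) : Prop :=
  ∀ x : ℕ, x₀ ≤ x → c * (x / Real.log x) ≤ {p : ℕ | p.Prime ∧ p ≤ x ∧ p ∈ E}.ncard

/-- `E` is a multiplicative set of odd positive integers: it contains `1`, and the product of coprime
integers is in `E` if and only if both factors are. -/
def OddMultSet (E : Set ℕ) : Prop :=
  (∀ n ∈ E, Odd n) ∧ 1 ∈ E ∧ ∀ m n : ℕ, m.Coprime n → (m * n ∈ E ↔ m ∈ E ∧ n ∈ E)

/-- additive functions with values in an abelian group: `F (m n) = F m + F n` for coprime positive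
integers `m`, `n` -/
def Additive {G : Type} [AddCommGroup G] (F : ℕ → G) : Prop :=
  ∀ m n : ℕ, 0 < m → 0 < n → m.Coprime n → F (m * n) = F m + F n

open scoped Classical in
/-- the elements `n ≤ N` of `E` -/
noncomputable def upTo (E : Set ℕ) (N : ℕ) : Finset ℕ := (Icc 1 N).filter (fun n => n ∈ E)

open scoped Classical in
/-- UNIFORM INDEPENDENCE OF ALL ADDITIVE FUNCTIONS. For `c > 0`, `x₀`, `ε > 0`, `Q ≥ 1` and `r` prime to
`Q` there is `N₀` such that for all `N ≥ N₀`, all multiplicative sets `E` with at least `c x / log x` primes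
up to `x` for `x ≥ x₀`, ALL abelian groups `G`, ALL additive functions `F` with values in `G` and ALL `k` in
`G` the sum of the weights `W N n` over the `n ≤ N` in `E` with `n ≡ r` modulo `Q` and `F n = k` is `V`
times the number of these `n`, up to `ε` times the number of all the `n ≤ N` in `E`. -/
def UniformlyIndependent (W : ℕ → ℕ → ℝ) (V : ℝ) : Prop :=
  ∀ (c : ℝ) (x₀ : ℕ) (ε : ℝ) (Q r : ℕ), 0 < c → 0 < ε → 1 ≤ Q → r.Coprime Q →
  ∃ N₀ : ℕ, ∀ N : ℕ, N₀ ≤ N → ∀ E : Set ℕ, OddMultSet E → ManyPrimes c x₀ E →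
  ∀ (G : Type) [AddCommGroup G] (F : ℕ → G), Additive F → ∀ k : G,
    |∑ n ∈ (upTo E N).filter (fun n => n % Q = r % Q ∧ F n = k), W N n -
      V * ((upTo E N).filter (fun n => n % Q = r % Q ∧ F n = k)).card| ≤ ε * (upTo E N).card

/-- The law of `X N n`, `n` uniformly distributed in `upTo E N`, converges weakly to `ν`. -/
def ConvergesInLaw (E : Set ℕ) {d : ℕ} (X : ℕ → ℕ → EuclideanSpace ℝ (Fin d))
    (ν : Measure (EuclideanSpace ℝ (Fin d))) : Prop :=
  ∀ Ψ : EuclideanSpace ℝ (Fin d) →ᵇ ℝ,
    Tendsto (fun N => (∑ n ∈ upTo E N, Ψ (X N n)) / (upTo E N).card) atTop (𝓝 (∫ x, Ψ x ∂ν))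

open scoped Classical in
/-- PRODUCT LIMIT LAWS. Let `E` be a multiplicative set with many primes, let `f N` be additive functions
with values in `ℝ^d` and `A N` vectors such that the law of `f N n - A N`, `n ≤ N` in `E`, converges to a
probability measure `ν`. Then the weighted means of `Ψ (f N n - A N)` converge to `V ∫ Ψ dν` for every
bounded continuous function `Ψ`, and the weighted frequencies of `f N n - A N ∈ B` converge to `V ν(B)` for
every Borel set `B` whose boundary is a null set for `ν`. -/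
def ProductLimitLaws (W : ℕ → ℕ → ℝ) (V : ℝ) : Prop :=
  ∀ (c : ℝ) (x₀ : ℕ) (E : Set ℕ), 0 < c → OddMultSet E → ManyPrimes c x₀ E →
  ∀ (d : ℕ) (f : ℕ → ℕ → EuclideanSpace ℝ (Fin d)) (A : ℕ → EuclideanSpace ℝ (Fin d))
    (ν : Measure (EuclideanSpace ℝ (Fin d))) [IsProbabilityMeasure ν],
  (∀ N, Additive (f N)) → ConvergesInLaw E (fun N n => f N n - A N) ν →
    (∀ Ψ : EuclideanSpace ℝ (Fin d) →ᵇ ℝ,
      Tendsto (fun N => (∑ n ∈ upTo E N, W N n * Ψ (f N n - A N)) / (upTo E N).card) atTop
        (𝓝 (V * ∫ x, Ψ x ∂ν))) ∧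
    ∀ B : Set (EuclideanSpace ℝ (Fin d)), MeasurableSet B → ν (frontier B) = 0 →
      Tendsto (fun N => (∑ n ∈ (upTo E N).filter (fun n => f N n - A N ∈ B), W N n) /
        (upTo E N).card) atTop (𝓝 (V * (ν B).toReal))

/-- the number of prime factors of `n`, normalised as in the theorem of Erdős and Kac -/
noncomputable def normalizedOmega (N n : ℕ) : ℝ :=
  ((n.primeFactors.card : ℝ) - Real.log (Real.log N)) / Real.sqrt (Real.log (Real.log N))

open scoped Classical in
/-- JOINT LAW WITH THE NUMBER OF PRIME FACTORS. The sum of the weights over the odd `n ≤ N` with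
`ω(n) ≤ log log N + y √(log log N)`, divided by the number of the odd `n ≤ N`, tends to `V Phi y`. -/
def OmegaLaw (W : ℕ → ℕ → ℝ) (V : ℝ) : Prop :=
  ∀ y : ℝ, Tendsto (fun N => (∑ n ∈ (upTo {n | Odd n} N).filter (fun n => normalizedOmega N n ≤ y), W N n) /
    (upTo {n | Odd n} N).card) atTop (𝓝 (V * Phi y))

/-- The odd positive sums of two squares. -/
def OddTwoSquares : Set ℕ := {n | Odd n ∧ ∃ x y : ℕ, n = x ^ 2 + y ^ 2}

/-- The odd positive integers all of whose prime factors are congruent modulo `q` to elements of `A`. -/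
def OddPrimesIn (q : ℕ) (A : Set ℕ) : Set ℕ := {n | Odd n ∧ ∀ p : ℕ, p.Prime → p ∣ n → ∃ a ∈ A, p % q = a % q}

/-- a multiplicative set of odd integers with many primes -/
def IsRich (E : Set ℕ) : Prop := OddMultSet E ∧ ∃ c : ℝ, 0 < c ∧ ∃ x₀ : ℕ, ManyPrimes c x₀ E

/-- the three properties of a weight -/
def Independent (W : ℕ → ℕ → ℝ) (V : ℝ) : Prop :=
  UniformlyIndependent W V ∧ ProductLimitLaws W V ∧ OmegaLaw W V

open scoped Classical in
/-- the indicator function of the property `P` as a weight -/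
noncomputable def ind (P : ℕ → Prop) : ℕ → ℕ → ℝ := fun _ n => if P n then 1 else 0

section proof

open Pool.Agent.L0h87.HA

theorem um_one' {v : ℕ → ℂ} (h : UM v) : v 1 = 1 := by
  have h1 := h.2 1 1 one_pos one_pos (Nat.coprime_one_left 1)
  rw [mul_one] at h1
  have h0 : v 1 ≠ 0 := by
    intro h2
    have := h.1 1 one_pos
    rw [h2, norm_zero] at this
    exact zero_ne_one this
  refine mul_left_cancel₀ h0 ?_
  rw [← h1, mul_one]

open scoped Classical in
/-- the averages against unimodular multiplicative functions -/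
def Core (W : ℕ → ℕ → ℝ) (V : ℝ) : Prop :=
  ∀ (c : ℝ) (x₀ : ℕ) (ε : ℝ) (Q r : ℕ), 0 < c → 0 < ε → 1 ≤ Q → r.Coprime Q →
  ∃ N₀ : ℕ, ∀ N : ℕ, N₀ ≤ N → ∀ E : Set ℕ, OddMultSet E → ManyPrimes c x₀ E → ∀ v : ℕ → ℂ, UM v →
    ‖∑ n ∈ (upTo E N).filter (fun n => n % Q = r % Q), ((W N n : ℂ) - V) * v n‖ ≤ ε * (upTo E N).card

open scoped Classical in
theorem core_of_avg {W : ℕ → ℕ → ℝ} {V : ℝ} (h : HeightsInSemigroups.RelativeAverage W V) : Core W V := by
  intro c x₀ ε Q r hc hε hQ hr
  obtain ⟨N₀, h0⟩ := h c x₀ ε Q r hc hε hQ hr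
  refine ⟨N₀, fun N hN E hE hp v hv => ?_⟩
  have hE0 : (0 : ℕ) ∉ E := fun h => by have := hE.1 0 h; simp at this
  set hf : ArithmeticFunction ℝ := ⟨fun n => if n ∈ E then 1 else 0, if_neg hE0⟩ with hhf
  set g : ArithmeticFunction ℂ := ⟨fun n => if n ∈ E then v n else 0, if_neg hE0⟩ with hg
  have hfa : ∀ n, hf n = if n ∈ E then 1 else 0 := fun _ => rfl
  have hga : ∀ n, g n = if n ∈ E then v n else 0 := fun _ => rfl
  have pos : ∀ n ∈ E, 0 < n := fun n hn => Nat.pos_of_ne_zero fun h => hE0 (h ▸ hn)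
  have m1 : hf.IsMultiplicative := by
    refine ⟨by rw [hfa, if_pos hE.2.1], fun {m n} hmn => ?_⟩
    rw [hfa, hfa, hfa]
    have := hE.2.2 m n hmn
    by_cases h1 : m ∈ E <;> by_cases h2 : n ∈ E <;> simp [this, h1, h2]
  have m2 : g.IsMultiplicative := by
    refine ⟨by rw [hga, if_pos hE.2.1, um_one' hv], fun {m n} hmn => ?_⟩
    rw [hga, hga, hga]
    have := hE.2.2 m n hmn
    by_cases h1 : m ∈ E
    · by_cases h2 : n ∈ E
      · simp only [this, h1, h2, and_self, if_true]
        exact hv.2 m n (pos m h1) (pos n h2) hmn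
      · simp [this, h2]
    · simp [this, h1]
  have key := h0 N hN hf m1 (fun n => by rw [hfa]; split_ifs <;> norm_num)
    (fun n hn => by
      rw [hfa, if_neg]
      intro h2
      exact (Nat.not_even_iff_odd.2 (hE.1 n h2)) hn)
    (fun x hx => by
      refine (hp x hx).trans (le_of_eq ?_)
      have e : {p : ℕ | p.Prime ∧ p ≤ x ∧ p ∈ E} =
          (((Icc 1 x).filter Nat.Prime).filter (fun p => p ∈ E) : Finset ℕ) := by
        ext p
        simp only [Set.mem_ofPred_eq, coe_filter, mem_filter, mem_Icc]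
        constructor
        · rintro ⟨h1, h2, h3⟩
          exact ⟨⟨⟨h1.one_lt.le, h2⟩, h1⟩, h3⟩
        · rintro ⟨⟨⟨h1, h2⟩, h3⟩, h4⟩
          exact ⟨h3, h2, h4⟩
      rw [e, Set.ncard_coe_finset]
      simp only [hfa]
      rw [Finset.sum_ite, Finset.sum_const_zero, add_zero, Finset.sum_const, nsmul_eq_mul, mul_one]) g m2
    (fun n => by
      rw [hga, hfa]
      split_ifs with h1
      · rw [hv.1 n (pos n h1)]
      · simp)
  have e1 : ∑ n ∈ Icc 1 N, hf n = (upTo E N).card := by
    simp only [hfa]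
    rw [Finset.sum_ite, Finset.sum_const_zero, add_zero, Finset.sum_const, nsmul_eq_mul, mul_one]
    rfl
  have hsum : ∀ w : ℕ → ℂ, ∑ n ∈ (Icc 1 N).filter (fun n => n % Q = r % Q), w n * g n =
      ∑ n ∈ (upTo E N).filter (fun n => n % Q = r % Q), w n * v n := by
    intro w
    rw [upTo, Finset.filter_filter, Finset.sum_filter, Finset.sum_filter]
    refine Finset.sum_congr rfl fun n _ => ?_
    rw [hga]
    by_cases h1 : n ∈ E <;> by_cases h2 : n % Q = r % Q <;> simp [h1, h2]
  have e2 : ∑ n ∈ (upTo E N).filter (fun n => n % Q = r % Q), ((W N n : ℂ) - V) * v n =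
      ∑ n ∈ (Icc 1 N).filter (fun n => n % Q = r % Q), (W N n : ℂ) * g n -
      V * ∑ n ∈ (Icc 1 N).filter (fun n => n % Q = r % Q), g n := by
    rw [Finset.mul_sum, hsum (fun n => (W N n : ℂ)), hsum (fun _ => (V : ℂ)), ← Finset.sum_sub_distrib]
    exact Finset.sum_congr rfl fun n _ => sub_mul _ _ _
  rw [e2, ← e1]
  exact key

open scoped Classical in
theorem core_of_rel {P : ℕ → Prop} {l : ℝ} (h : HeightsInSemigroups.Relative P l) : Core (ind P) l := by
  refine core_of_avg fun c x₀ ε Q r hc hε hQ hr => ?_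
  obtain ⟨N₀, h0⟩ := h c x₀ ε Q r hc hε hQ hr
  refine ⟨N₀, fun N hN hf m1 m2 m3 m4 g m5 m6 => ?_⟩
  have key := h0 N hN hf m1 m2 m3 m4 g m5 m6
  have e : ∑ n ∈ (Icc 1 N).filter (fun n => n % Q = r % Q), ((ind P N n : ℝ) : ℂ) * g n =
      ∑ n ∈ (Icc 1 N).filter (fun n => n % Q = r % Q ∧ P n), g n := by
    rw [Finset.sum_filter, Finset.sum_filter]
    refine Finset.sum_congr rfl fun n _ => ?_
    by_cases h1 : n % Q = r % Q <;> by_cases h2 : P n <;> simp [h1, h2, ind]
  rw [e]
  exact key

open scoped Classical in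
theorem uniform {W : ℕ → ℕ → ℝ} {V : ℝ} (h : Core W V) : UniformlyIndependent W V := by
  intro c x₀ ε Q r hc hε hQ hr
  obtain ⟨N₀, h0⟩ := h c x₀ ε Q r hc hε hQ hr
  refine ⟨N₀, fun N hN E hE hp G _ F hF k => ?_⟩
  have key := group_case (F := F) hF k (S := (upTo E N).filter (fun n => n % Q = r % Q))
    (w := fun n => (W N n : ℂ) - V) (K := ε * (upTo E N).card) (fun v hv => h0 N hN E hE hp v hv)
  rw [Finset.filter_filter] at key
  have e : ((∑ n ∈ (upTo E N).filter (fun n => n % Q = r % Q ∧ F n = k), W N n -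
      V * ((upTo E N).filter (fun n => n % Q = r % Q ∧ F n = k)).card : ℝ) : ℂ) =
      ∑ n ∈ (upTo E N).filter (fun n => n % Q = r % Q ∧ F n = k), ((W N n : ℂ) - V) := by
    rw [Finset.sum_sub_distrib, Finset.sum_const, nsmul_eq_mul]
    push_cast
    ring
  rw [← e, Complex.norm_real] at key
  exact key

open scoped Classical in
theorem one_mem_upTo {E : Set ℕ} (hE : OddMultSet E) {N : ℕ} (hN : 1 ≤ N) : 1 ∈ upTo E N := by
  rw [upTo, mem_filter, mem_Icc]
  exact ⟨⟨le_rfl, hN⟩, hE.2.1⟩

open scoped Classical in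
theorem product {W : ℕ → ℕ → ℝ} {V : ℝ} (h : Core W V) (hW : ∀ N n, 0 ≤ W N n) : ProductLimitLaws W V := by
  intro c x₀ E hc hE hp d f A ν _ hf hconv
  have hS : ∀ᶠ N in atTop, (upTo E N).Nonempty := by
    filter_upwards [eventually_ge_atTop 1] with N hN
    exact ⟨1, one_mem_upTo hE hN⟩
  have h1 : Prop1 (upTo E) W V := by
    intro v hv
    rw [Metric.tendsto_atTop]
    intro ε hε
    obtain ⟨N₀, h0⟩ := h c x₀ (ε / 2) 1 0 hc (by positivity) le_rfl (by simp)
    refine ⟨N₀, fun N hN => ?_⟩
    have key := h0 N hN E hE hp (v N) (hv N)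
    have e0 : (upTo E N).filter (fun n => n % 1 = 0 % 1) = upTo E N := by
      refine Finset.filter_true_of_mem fun n _ => ?_
      simp [Nat.mod_one]
    rw [e0] at key
    rw [dist_zero_right]
    have e1 : (∑ n ∈ upTo E N, (W N n : ℂ) * v N n) / ((upTo E N).card : ℂ) -
        V * ((∑ n ∈ upTo E N, v N n) / (upTo E N).card) =
        (∑ n ∈ upTo E N, ((W N n : ℂ) - V) * v N n) / (upTo E N).card := by
      rw [← mul_div_assoc, ← sub_div, Finset.mul_sum, ← Finset.sum_sub_distrib]
      congr 1
      exact Finset.sum_congr rfl fun n _ => (sub_mul _ _ _).symm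
    rw [e1, norm_div, Complex.norm_natCast]
    rcases (Nat.cast_nonneg (α := ℝ) (upTo E N).card).eq_or_lt with h2 | h2
    · rw [← h2, div_zero]
      exact hε
    · rw [div_lt_iff₀ h2]
      refine key.trans_lt ?_
      nlinarith
  have key := limit_law (S := upTo E) (W := W) (V := V) (ν := ν) (f := f) (A := A)
    (Eventually.of_forall fun N n _ => hW N n) h1 hS hf hconv
  exact ⟨key.1, fun B hB hfr => key.2 B hB hfr⟩

theorem ind_nonneg (P : ℕ → Prop) (N n : ℕ) : 0 ≤ ind P N n := by
  unfold ind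
  split_ifs <;> norm_num

/-- the odd integers -/
theorem rich_odd : IsRich {n | Odd n} := by
  obtain ⟨δ, -, -, -, -, -, -, -, -, -, -, h8⟩ := HeightsInSemigroups.result
  have h := h8 1 0 {0} le_rfl rfl (by simp)
  have e : HeightsInSemigroups.OddPrimesIn 1 {0} = {n | Odd n} := by
    ext n
    constructor
    · intro h
      exact h.1
    · intro h
      exact ⟨h, fun p _ _ => ⟨0, rfl, by simp [Nat.mod_one]⟩⟩
  rw [e] at h
  exact h

/-- the embedding of the line -/
noncomputable def emb (x : ℝ) : EuclideanSpace ℝ (Fin 1) := !₂[x]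

theorem emb_cont : Continuous emb := by
  unfold emb
  refine (PiLp.continuous_toLp 2 _).comp (continuous_pi fun k => ?_)
  fin_cases k
  exact continuous_id

theorem emb_apply (x : ℝ) : emb x 0 = x := rfl

open scoped Classical in
theorem omega {W : ℕ → ℕ → ℝ} {V : ℝ} (h : ProductLimitLaws W V) : OmegaLaw W V := by
  intro y
  obtain ⟨hE, c, hc, x₀, hp⟩ := rich_odd
  set γ := ProbabilityTheory.gaussianReal 0 1 with hγ
  have hn := ProbabilityTheory.nullSingletonClass_gaussianReal (μ := 0) (v := 1) (by norm_num)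
  set ν : Measure (EuclideanSpace ℝ (Fin 1)) := γ.map emb with hν
  have hνp : IsProbabilityMeasure ν := Measure.isProbabilityMeasure_map emb_cont.aemeasurable
  set f : ℕ → ℕ → EuclideanSpace ℝ (Fin 1) := fun N n =>
    emb ((n.primeFactors.card : ℝ) / Real.sqrt (Real.log (Real.log N))) with hf
  set A : ℕ → EuclideanSpace ℝ (Fin 1) := fun N =>
    emb (Real.log (Real.log N) / Real.sqrt (Real.log (Real.log N))) with hA
  have hX : ∀ N n, f N n - A N = emb (normalizedOmega N n) := by
    intro N n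
    rw [hf, hA]
    ext k
    fin_cases k
    simp only [emb, normalizedOmega]
    simp [sub_div]
  have hadd : ∀ N, Additive (f N) := by
    intro N m n hm hn hmn
    rw [hf]
    simp only
    rw [Nat.Coprime.primeFactors_mul hmn, card_union_of_disjoint hmn.disjoint_primeFactors]
    ext k
    fin_cases k
    simp only [emb]
    push_cast
    simp [add_div]
  have hS : ∀ᶠ N in atTop, (upTo {n | Odd n} N).Nonempty := by
    filter_upwards [eventually_ge_atTop 1] with N hN
    exact ⟨1, one_mem_upTo hE hN⟩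
  have hconv : ConvergesInLaw {n | Odd n} (fun N n => f N n - A N) ν := by
    intro Ψ
    set Ψ' : ℝ →ᵇ ℝ := Ψ.compContinuous ⟨emb, emb_cont⟩ with hΨ'
    have key := weak_of_cdf (S := upTo {n | Odd n}) (X := fun N n => normalizedOmega N n) (γ := γ) hS
      (fun y => by
        have h1 := ek_odd (MP_4a5284_nt.BeattyRate.result 2 two_pos 1) y
        refine h1.congr fun N => ?_
        have ea : (Icc 1 N).filter (fun n => Odd n ∧ nom N n ≤ y) =
            (upTo {n | Odd n} N).filter (fun n => normalizedOmega N n ≤ y) := by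
          ext n
          simp only [upTo, mem_filter, Set.mem_ofPred_eq, and_assoc]
          rfl
        have eb : (Icc 1 N).filter (fun n => Odd n) = upTo {n | Odd n} N := by
          ext n
          simp only [upTo, mem_filter, Set.mem_ofPred_eq]
        rw [ea, eb]) Ψ'
    have e1 : ∫ x, Ψ x ∂ν = ∫ x, Ψ' x ∂γ := by
      rw [hν, integral_map emb_cont.aemeasurable Ψ.continuous.aestronglyMeasurable]
      rfl
    rw [e1]
    refine key.congr fun N => ?_
    congr 1
    refine Finset.sum_congr rfl fun n _ => ?_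
    change Ψ' (normalizedOmega N n) = Ψ (f N n - A N)
    rw [hX]
    rfl
  set B : Set (EuclideanSpace ℝ (Fin 1)) := {v | v 0 ≤ y} with hB
  have hcl : IsClosed B := isClosed_le (by fun_prop) continuous_const
  have hpre : emb ⁻¹' B = Set.Iic y := by
    ext x
    rfl
  have hfr : ν (frontier B) = 0 := by
    have hsub : frontier B ⊆ {v | v 0 = y} := by
      intro v hv
      have h1 : v ∈ B := hcl.frontier_subset hv
      have h2 : v ∉ interior B := hv.2
      by_contra hne
      apply h2
      have h3 : v ∈ {v : EuclideanSpace ℝ (Fin 1) | v 0 < y} := lt_of_le_of_ne h1 hne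
      have h4 : {v : EuclideanSpace ℝ (Fin 1) | v 0 < y} ⊆ B := fun w hw => le_of_lt (show w 0 < y from hw)
      exact interior_maximal h4 (isOpen_lt (by fun_prop) continuous_const) h3
    refine measure_mono_null hsub ?_
    have hm : MeasurableSet {v : EuclideanSpace ℝ (Fin 1) | v 0 = y} :=
      (isClosed_eq (by fun_prop) continuous_const).measurableSet
    rw [hν, Measure.map_apply emb_cont.measurable hm]
    have : emb ⁻¹' {v | v 0 = y} = {y} := by
      ext x
      rfl
    rw [this]
    exact measure_singleton y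
  have key := (h c x₀ {n | Odd n} hc hE hp 1 f A ν hadd hconv).2 B hcl.measurableSet hfr
  have e2 : (ν B).toReal = Phi y := by
    rw [hν, Measure.map_apply emb_cont.measurable hcl.measurableSet, hpre]
    unfold Phi
    rw [ProbabilityTheory.cdf_eq_real]
    rfl
  rw [e2] at key
  refine key.congr fun N => ?_
  congr 1
  refine Finset.sum_congr ?_ fun _ _ => rfl
  refine Finset.filter_congr fun n _ => ?_
  rw [hX]
  rfl

theorem independent {W : ℕ → ℕ → ℝ} {V : ℝ} (h : Core W V) (hW : ∀ N n, 0 ≤ W N n) : Independent W V :=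
  ⟨uniform h, product h hW, omega (product h hW)⟩

end proof

theorem result : ∃ δ : ℝ, 0 < δ ∧ δ ≤ 1 ∧ (δ = 1 ↔ ∀ m : ℕ, Odd m → height m ≠ ⊤) ∧
    HasOddDensity (fun m => height m ≠ ⊤) δ ∧
    -- the odd integers of infinite height
    Independent (ind fun m => height m = ⊤) (1 - δ) ∧
    -- the limit law of the height, in residue classes
    (∀ (q : ℕ) (b : ℤ) (x : ℝ), 1 ≤ q → Independent (ind (Level q b x)) (δ * Phi x / q)) ∧
    -- the normal order
    (∀ η : ℝ, 0 < η → Independent (ind fun m => ∃ h : ℕ, height m = h ∧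
      |(h : ℝ) - 2 / Real.log (16 / 9) * Real.log m| ≤ η * Real.log m) δ) ∧
    -- the truncated averages
    (∀ Λ : ℝ, 2 / Real.log (16 / 9) < Λ →
      Independent (fun N m => (truncHeight m ⌊Λ * Real.log N⌋₊ : ℝ) / Real.log N)
        (δ * (2 / Real.log (16 / 9)) + (1 - δ) * Λ)) ∧
    -- examples of the sets
    IsRich {n | Odd n} ∧ IsRich OddTwoSquares ∧
    ∀ (q a : ℕ) (A : Set ℕ), 1 ≤ q → a ∈ A → a.Coprime q → IsRich (OddPrimesIn q A) := by
  obtain ⟨δ, h0, h1, h2, h3, h4, h5, h6, h7, -, h9, h10⟩ := HeightsInSemigroups.result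
  refine ⟨δ, h0, h1, h2, h3, ?_, fun q b x hq => ?_, fun η hη => ?_, fun Λ hΛ => ?_, rich_odd, h9, h10⟩
  · exact independent (core_of_rel h4) (ind_nonneg _)
  · exact independent (core_of_rel (h5 q b x hq)) (ind_nonneg _)
  · exact independent (core_of_rel (h6 η hη)) (ind_nonneg _)
  · exact independent (core_of_avg (h7 Λ hΛ).1) fun N n =>
      div_nonneg (Nat.cast_nonneg _) (Real.log_natCast_nonneg N)

end Pool.Agent.Results.MP_2b866c_nt.AdditiveFunctions
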