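import Mathlib
import Pool.Agent.Results.MP_2b866c_nt.HeightsInSemigroups
import Pool.Agent.Results.MP_2b866c_nt.HeightNeighbours
import Pool.Agent.L0h87.LE.Fur
import Pool.Agent.L0h87.LE.NBR
import Pool.Agent.L0h87.LE.StmC
import Pool.Agent.L0h28.LE.RHO
import Pool.Agent.L0h19.LE.GEO
import Pool.Agent.L0h41.LE.BES
import Pool.Agent.L0h41.LE.SML
import Pool.Agent.L0h29.LE.CIR
import Pool.Agent.L0h39.LE.HYB
import Pool.Agent.L0h56.LE.MZD
import Pool.Agent.L0h33.LE.INF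
import Pool.Agent.L0h90.LE.LVI
import Pool.Agent.L0h4.LE.AVG
import Pool.Agent.L0h56.LE.CNT
import Pool.Agent.L0h87.LE.StmB
import Pool.Agent.L0h85.LE.REP
import Pool.Agent.L0h71.LE.BIN
import Pool.Agent.L0h19.QE.All
import Pool.Agent.L0h57.PQ.Fin

set_option autoImplicit false

/-!
# The heights of the 3x+1 map in the solutions of diagonal equations of degree one and two

The exponential sums `∑ (W N m - V) e(α m ^ d)` over the odd integers `m ≤ N`, `W` one of the weights given by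
the heights and `V` its mean value, are `o(N)`, uniformly in the real number `α`, for `d = 1` and `d = 2`. So
the heights of the components of the solutions of `∑ a_i m_i ^ d = n` in odd integers `m_i ≤ N` are
asymptotically independent if there are at least three variables (`d = 1`) or at least seven (`d = 2`), for
instance the heights of the terms of arithmetic progressions with three terms and the heights of the summands
in the representations of an odd integer as a sum of three odd integers. The same is true for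
the representations of almost all `n` as a sum of two odd integers, or of four odd squares, and for the
representations of all `n` in the form `a m_1 + b m_2 + f(k)`, `f` an integral polynomial, for instance for the
heights of `m` and `m + k ²`.

Idea. For almost all odd `n` the height is the same at all odd integers near `n`, and smaller by `b` at
all odd integers near `3 ^ b n / 2 ^ a` (`HeightNeighbours`). Since the heights are nearly constant on
short intervals, only `α` very near a rational number with bounded denominator matter (Weyl, van der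
Corput), and for these the sum at `α` is nearly a multiple of the sum at the distance `β` of `α` from
this number; the latter is nearly equal to the sums at `β / ρ ^ (d l)`, `l = 0, 1, ..., K - 1`, where
`ρ = 3 ^ b / 2 ^ a` is close to `1`. If `|β| N ^ d` is large then these `K` exponentials are nearly
orthogonal, and by Bessel's inequality the sum at `β` is at most about `N / √K`. If `|β| N ^ d` is bounded
the density of the weights is used. The circle method gives the theorem on diagonal equations; for squares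
it uses that `m_1² + m_2² + m_3² = m_4² + m_5² + m_6²` has `O(N⁴)` solutions.

Authors: helper87, helper19 and helper57 (polynomials); modules by helper4, 19, 28, 29, 33, 39, 41, 56, 71, 85, 90 (degree one) and
helper2, 19, 24, 25, 26, 28, 29, 48, 55, 59, 61, 65, 66, 81, 83, 85, 90, 91, 92, 98 (degree two).
-/

namespace Pool.Agent.Results.MP_2b866c_nt.DiagonalEquations

open Filter Topology Finset
open scoped Polynomial

/-- `C(m) = (3m+1)/2^e(m)`, `2^e(m)` the largest power of `2` dividing `3m+1` -/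
def C (m : ℕ) : ℕ := (3 * m + 1) / 2 ^ padicValNat 2 (3 * m + 1)

/-- the height `h(m)`, the least `k ≥ 1` with `C^k(m) = 1`, and `⊤ = ∞` if there is none -/
noncomputable def height (m : ℕ) : ℕ∞ := sInf {k : ℕ∞ | ∃ j : ℕ, 1 ≤ j ∧ C^[j] m = 1 ∧ k = j}

/-- `min(h(m), L)`, a natural number -/
noncomputable def truncHeight (m L : ℕ) : ℕ := (min (height m) (L : ℕ∞)).toNat

/-- among the odd positive integers, those with the property `P` have the natural density `δ` -/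
def HasOddDensity (P : ℕ → Prop) (δ : ℝ) : Prop :=
  Tendsto (fun N : ℕ => 2 / (N : ℝ) * ({m : ℕ | m ≤ N ∧ Odd m ∧ P m}.ncard : ℝ)) atTop (𝓝 δ)

/-- `2 / log (16/9) * log m + x * log 2 * √(2 log m / (log (4/3))^3)` -/
noncomputable def bound (x : ℝ) (m : ℕ) : ℝ :=
  2 / Real.log (16 / 9) * Real.log m
    + x * (Real.log 2 * Real.sqrt (2 * Real.log m / Real.log (4 / 3) ^ 3))

/-- The distribution function of the standard normal law. -/
noncomputable def Phi (x : ℝ) : ℝ :=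
  ProbabilityTheory.cdf (ProbabilityTheory.gaussianReal 0 1) x

/-- The height of `m` is finite, at most `bound x m` and congruent to `b` modulo `q`. -/
def Level (q : ℕ) (b : ℤ) (x : ℝ) (m : ℕ) : Prop :=
  ∃ h : ℕ, height m = h ∧ (h : ℝ) ≤ bound x m ∧ (h : ℤ) ≡ b [ZMOD q]

open scoped Classical in
/-- the indicator function of the property `P` as a weight -/
noncomputable def ind (P : ℕ → Prop) : ℕ → ℕ → ℝ := fun _ m => if P m then 1 else 0

/-- THE WEIGHTS given by the heights, and their mean values (`δ` is the density of the odd integers with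
finite height): the odd integers of infinite height, of finite height, the level sets of the limit law in
residue classes, the truncated height divided by `log N`, and the constant weight. -/
inductive HeightWeight (δ : ℝ) : (ℕ → ℕ → ℝ) → ℝ → Prop
  | infinite : HeightWeight δ (ind fun m => height m = ⊤) (1 - δ)
  | finite : HeightWeight δ (ind fun m => height m ≠ ⊤) δ
  | level (q : ℕ) (b : ℤ) (x : ℝ) : 1 ≤ q → HeightWeight δ (ind (Level q b x)) (δ * Phi x / q)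
  | average (Λ : ℝ) : 2 / Real.log (16 / 9) < Λ →
      HeightWeight δ (fun N m => (truncHeight m ⌊Λ * Real.log N⌋₊ : ℝ) / Real.log N)
        (δ * (2 / Real.log (16 / 9)) + (1 - δ) * Λ)
  | one : HeightWeight δ (fun _ _ => 1) 1

/-- the odd integers from `1` to `N` -/
def oddUpTo (N : ℕ) : Finset ℕ := (Icc 1 N).filter (fun m => m % 2 = 1)

/-- the solutions of `∑ a_i m_i ^ d = n` in odd integers from `1` to `N` -/
def solutions {k : ℕ} (d : ℕ) (a : Fin k → ℤ) (N : ℕ) (n : ℤ) : Finset (Fin k → ℕ) :=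
  (Fintype.piFinset fun _ : Fin k => oddUpTo N).filter (fun m => ∑ i, a i * (m i : ℤ) ^ d = n)

/-- UNIFORMLY SMALL EXPONENTIAL SUMS: `|∑ (W N m - V) exp (2 π i α m ^ d)| ≤ ε N` for all `N ≥ N₀(ε)` and
all real `α`, the sum over the odd integers `m ≤ N`. -/
def SmallExpSums (d : ℕ) (W : ℕ → ℕ → ℝ) (V : ℝ) : Prop :=
  ∀ ε : ℝ, 0 < ε → ∃ N₀ : ℕ, ∀ N : ℕ, N₀ ≤ N → ∀ α : ℝ,
    ‖∑ m ∈ oddUpTo N, ((W N m - V : ℝ) : ℂ) *
      Complex.exp (2 * Real.pi * Complex.I * (α * (m : ℝ) ^ d : ℝ))‖ ≤ ε * N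

/-- ASYMPTOTIC INDEPENDENCE IN DIAGONAL EQUATIONS: the sum of the products `∏ W_i(m_i)` over the solutions
of `∑ a_i m_i ^ d = n` in odd integers `m_i ≤ N` is `∏ V_i` times the number of the solutions up to
`ε N ^ (k - d)`, for all `N ≥ N₀(ε)`, all nonzero coefficients `a_i` and all `n`. -/
def Independent {k : ℕ} (d : ℕ) (W : Fin k → ℕ → ℕ → ℝ) (V : Fin k → ℝ) : Prop :=
  ∀ ε : ℝ, 0 < ε → ∃ N₀ : ℕ, ∀ N : ℕ, N₀ ≤ N → ∀ a : Fin k → ℤ, (∀ i, a i ≠ 0) → ∀ n : ℤ,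
    |∑ m ∈ solutions d a N n, ∏ i, W i N (m i) - (∏ i, V i) * (solutions d a N n).card| ≤ ε * N ^ (k - d)

/-- SUMS OF ODD `d`-TH POWERS: for all `N ≥ N₀(ε)` and all `n ≤ N ^ d` with at most `ε N ^ d` exceptions the
sum of the products `∏ W_i(m_i)` over the solutions of `m_1 ^ d + ... + m_s ^ d = n` in odd positive
integers is `∏ V_i` times the number of the solutions up to `ε N ^ (s - d)`. -/
def AlmostAllSums {s : ℕ} (d : ℕ) (W : Fin s → ℕ → ℕ → ℝ) (V : Fin s → ℝ) : Prop :=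
  ∀ ε : ℝ, 0 < ε → ∃ N₀ : ℕ, ∀ N : ℕ, N₀ ≤ N →
    ({n : ℕ | n ≤ N ^ d ∧ ε * N ^ (s - d) <
      |∑ m ∈ solutions (k := s) d (fun _ => 1) N n, ∏ i, W i N (m i) -
        (∏ i, V i) * (solutions (k := s) d (fun _ => 1) N n).card|}.ncard : ℝ) ≤ ε * N ^ d

/-- the mean of the products `∏ W_i(m_i)` over the solutions of `∑ a_i m_i ^ d = n` in odd integers
`m_i ≤ N` -/
noncomputable def mean {k : ℕ} (d : ℕ) (a : Fin k → ℤ) (W : Fin k → ℕ → ℕ → ℝ) (N : ℕ) (n : ℤ) : ℝ :=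
  (∑ m ∈ solutions d a N n, ∏ i, W i N (m i)) / (solutions d a N n).card

/-- the solutions of `a m_1 + b m_2 + f(k) = n` in odd integers `m_1, m_2` from `1` to `N` and integers `k`
from `1` to `K` -/
def polySolutions (f : ℤ[X]) (a b : ℤ) (N K : ℕ) (n : ℤ) : Finset ((ℕ × ℕ) × ℕ) :=
  ((oddUpTo N ×ˢ oddUpTo N) ×ˢ Icc 1 K).filter
    (fun z => a * (z.1.1 : ℤ) + b * (z.1.2 : ℤ) + f.eval (z.2 : ℤ) = n)

/-- ASYMPTOTIC INDEPENDENCE AT POLYNOMIAL DISTANCE: for every nonconstant integral polynomial `f` with positive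
leading coefficient, all nonzero `a`, `b`, all `N ≥ N₀(f, a, b, B, ε)`, `N ≤ B K ^ deg f`, and all `n`, the sum
of `W_1(m_1) W_2(m_2)` over the solutions of `a m_1 + b m_2 + f(k) = n`, `m_1, m_2 ≤ N` odd, `k ≤ K`, is
`V_1 V_2` times the number of the solutions up to `ε N K`. -/
def PolyIndependent (W : Fin 2 → ℕ → ℕ → ℝ) (V : Fin 2 → ℝ) : Prop :=
  ∀ f : ℤ[X], 1 ≤ f.natDegree → 0 < f.leadingCoeff → ∀ a b : ℤ, a ≠ 0 → b ≠ 0 → ∀ (B : ℕ) (ε : ℝ), 0 < ε →
    ∃ N₀ : ℕ, ∀ N K : ℕ, N₀ ≤ N → N ≤ B * K ^ f.natDegree → ∀ n : ℤ,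
      |∑ z ∈ polySolutions f a b N K n, W 0 N z.1.1 * W 1 N z.1.2 -
        V 0 * V 1 * (polySolutions f a b N K n).card| ≤ ε * N * K

section proof

open Pool.Agent

theorem hRHO : L0h87.LE.RHO := L0h28.LE.RHO
theorem hGEO : L0h87.LE.GEO := L0h19.LE.GEO
theorem hBES : L0h87.LE.BES := L0h41.LE.BES hGEO
theorem hSML : L0h87.LE.SML := L0h41.LE.SML
theorem hHYB : L0h87.LE.HYB := L0h39.LE.hyb L0h29.LE.CIR
theorem hMZD : L0h87.LE.MZD := L0h56.LE.t_MZD
theorem hINF : L0h87.LE.INF := L0h33.LE.INF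
theorem hLVI : L0h87.LE.LVI := L0h90.LE.LVI
theorem hAVG : L0h87.LE.AVG := L0h4.LE.AVG

theorem hBIN : L0h87.LE.BIN := L0h71.LE.BIN L0h85.LE.REP

theorem nb : L0h87.LE.NB height := L0h87.LE.NBR

theorem hAVQ : L0h19.QE.S_AVQ := L0h19.QE.avq

theorem fur2 : ∀ (q : ℕ) (f : ℕ → ℝ) (C : ℝ), 1 ≤ q → (∀ n, |f n| ≤ C) →
    L0h87.LE.Inv q f → L0h87.LE.MZ f → L0h19.QE.FU2 f := L0h19.QE.fur2 hRHO

theorem hyq : L0h19.QE.HyQ := L0h19.QE.hyq

theorem odd_half : Tendsto (fun N : ℕ => 2 / (N : ℝ) * ({m : ℕ | m ≤ N ∧ Odd m}.ncard : ℝ)) atTop (𝓝 1) := by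
  classical
  have h0 : ∀ N : ℕ, {m : ℕ | m ≤ N ∧ Odd m}.ncard = (N + 1) / 2 := by
    intro N
    have h1 := L0h87.LE.card_odd_set N (fun _ => True)
    have e1 : {m : ℕ | m ≤ N ∧ Odd m ∧ True} = {m : ℕ | m ≤ N ∧ Odd m} := by
      ext m
      simp
    rw [e1] at h1
    have e2 : ∀ inst : DecidablePred fun _ : ℕ => True,
        @Finset.filter ℕ (fun _ => True) inst (L0h87.LE.odds N) = L0h87.LE.odds N := by
      intro inst
      ext x
      rw [@Finset.mem_filter _ _ inst]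
      simp
    rw [h1, e2, L0h56.LE.odds_card]
  have h1 : Tendsto (fun N : ℕ => 1 + 1 / (N : ℝ)) atTop (𝓝 (1 + 0)) :=
    tendsto_const_nhds.add tendsto_one_div_atTop_nhds_zero_nat
  rw [add_zero] at h1
  refine tendsto_of_tendsto_of_tendsto_of_le_of_le' tendsto_const_nhds h1 ?_ ?_
  · filter_upwards [eventually_gt_atTop 0] with N hN
    have hN' : (0 : ℝ) < N := by exact_mod_cast hN
    rw [h0, div_mul_eq_mul_div, le_div_iff₀ hN', one_mul]
    have : N ≤ 2 * ((N + 1) / 2) := by omega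
    exact_mod_cast this
  · filter_upwards [eventually_gt_atTop 0] with N hN
    have hN' : (0 : ℝ) < N := by exact_mod_cast hN
    rw [h0, div_mul_eq_mul_div, div_le_iff₀ hN', add_mul, one_mul, one_div, inv_mul_cancel₀ hN'.ne']
    have : 2 * ((N + 1) / 2) ≤ N + 1 := by omega
    exact_mod_cast this

/-- the densities, from `HeightsInSemigroups` -/
theorem data : ∃ δ : ℝ, 0 < δ ∧ δ ≤ 1 ∧ (δ = 1 ↔ ∀ m : ℕ, Odd m → height m ≠ ⊤) ∧
    HasOddDensity (fun m => height m ≠ ⊤) δ ∧ HasOddDensity (fun m => height m = ⊤) (1 - δ) ∧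
    (∀ (q : ℕ) (b : ℤ) (x : ℝ), 1 ≤ q → HasOddDensity (Level q b x) (δ * Phi x / q)) ∧
    (∀ η : ℝ, 0 < η → HasOddDensity (fun m => ∃ h : ℕ, height m = h ∧
      |(h : ℝ) - 2 / Real.log (16 / 9) * Real.log m| ≤ η * Real.log m) δ) := by
  obtain ⟨δ, h0, h1, h2, h3, h4, h5, h6, -, h8, -, h10⟩ := HeightsInSemigroups.result
  have hodd := h10 1 0 {0} le_rfl rfl (by simp)
  have e : HeightsInSemigroups.OddPrimesIn 1 {0} = {n | Odd n} := by
    ext n
    constructor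
    · intro h
      exact h.1
    · intro h
      exact ⟨h, fun p _ _ => ⟨0, rfl, by simp [Nat.mod_one]⟩⟩
  rw [e] at hodd
  obtain ⟨hE, c, hc, x₀, hp⟩ := hodd
  have key : ∀ (P : ℕ → Prop) (l : ℝ), HeightsInSemigroups.Relative P l → HasOddDensity P l := by
    intro P l hP
    have g := (h8 P l hP).2 c x₀ {n | Odd n} hc hE hp
    have g2 := g.mul odd_half
    rw [mul_one] at g2
    refine g2.congr' ?_
    filter_upwards [eventually_gt_atTop 0] with N hN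
    have hne : ({m : ℕ | m ≤ N ∧ Odd m}.ncard : ℝ) ≠ 0 := by
      have hfin : {m : ℕ | m ≤ N ∧ Odd m}.Finite := (Set.finite_Iic N).subset fun m hm => hm.1
      have : 0 < {m : ℕ | m ≤ N ∧ Odd m}.ncard := (Set.ncard_pos hfin).2 ⟨1, hN, odd_one⟩
      exact_mod_cast this.ne'
    change ({n : ℕ | n ≤ N ∧ Odd n ∧ P n}.ncard : ℝ) / ({m : ℕ | m ≤ N ∧ Odd m}.ncard : ℝ) *
      (2 / (N : ℝ) * ({m : ℕ | m ≤ N ∧ Odd m}.ncard : ℝ)) = _
    field_simp
  exact ⟨δ, h0, h1, h2, h3, key _ _ h4, fun q b x hq => key _ _ (h5 q b x hq), fun η hη => key _ _ (h6 η hη)⟩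

/-- small exponential sums in the notation of the modules -/
def FN (W : ℕ → ℕ → ℝ) (V : ℝ) : Prop := ∀ ε : ℝ, 0 < ε → ∃ N₀ : ℕ, ∀ N : ℕ, N₀ ≤ N → ∀ α : ℝ,
  ‖L0h87.LE.S (fun m => W N m - V) N α‖ ≤ ε * N

/-- small quadratic exponential sums in the notation of the modules -/
def FN2 (W : ℕ → ℕ → ℝ) (V : ℝ) : Prop := ∀ ε : ℝ, 0 < ε → ∃ N₀ : ℕ, ∀ N : ℕ, N₀ ≤ N → ∀ α : ℝ,
  ‖L0h19.QE.S2 (fun m => W N m - V) N α‖ ≤ ε * N

theorem sol_one {k : ℕ} (a : Fin k → ℤ) (N : ℕ) (n : ℤ) : solutions 1 a N n = L0h87.LE.sol a N n := by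
  unfold solutions L0h87.LE.sol
  simp only [pow_one]
  rfl

section

variable {δ : ℝ}

theorem im_inf (hinf : HasOddDensity (fun m => height m = ⊤) (1 - δ)) :
    (∀ n, |ind (fun m => height m = ⊤) 0 n - (1 - δ)| ≤ 1 + |1 - δ|) ∧
    L0h87.LE.Inv 1 (fun n => ind (fun m => height m = ⊤) 0 n - (1 - δ)) ∧
    L0h87.LE.MZ (fun n => ind (fun m => height m = ⊤) 0 n - (1 - δ)) := by
  have e : ∀ v : ℝ, (fun n => ind (fun m => height m = ⊤) 0 n - v) =
      fun n => (if height n = ⊤ then 1 else 0) - v := by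
    intro v
    funext n
    unfold ind
    by_cases h : height n = ⊤ <;> simp [h]
  have h1 := hINF height nb (1 - δ)
  have h2 := hMZD (fun m => height m = ⊤) (1 - δ) hinf
  refine ⟨fun n => ?_, ?_, ?_⟩
  · refine (abs_sub _ _).trans (add_le_add ?_ le_rfl)
    unfold ind
    split_ifs <;> simp
  · rw [e]
    convert h1 using 3
  · rw [e]
    convert h2 using 3; congr

theorem im_level (hlev : ∀ (q : ℕ) (b : ℤ) (x : ℝ), 1 ≤ q → HasOddDensity (Level q b x) (δ * Phi x / q))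
    {q : ℕ} (hq : 1 ≤ q) (b : ℤ) (x : ℝ) :
    (∀ n, |ind (Level q b x) 0 n - δ * Phi x / q| ≤ 1 + |δ * Phi x / q|) ∧
    L0h87.LE.Inv q (fun n => ind (Level q b x) 0 n - δ * Phi x / q) ∧
    L0h87.LE.MZ (fun n => ind (Level q b x) 0 n - δ * Phi x / q) := by
  have h1 := hLVI height δ nb (fun x => by
    have := hlev 1 0 x le_rfl
    rw [Nat.cast_one, div_one] at this
    exact this) q b x (δ * Phi x / q) hq
  have h2 := hMZD (Level q b x) (δ * Phi x / q) (hlev q b x hq)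
  refine ⟨fun n => ?_, h1, h2⟩
  refine (abs_sub _ _).trans (add_le_add ?_ le_rfl)
  unfold ind
  split_ifs <;> simp

theorem fu_inf (hinf : HasOddDensity (fun m => height m = ⊤) (1 - δ)) :
    L0h87.LE.FU (fun n => ind (fun m => height m = ⊤) 0 n - (1 - δ)) :=
  L0h87.LE.fur hRHO hGEO hBES hSML le_rfl (im_inf hinf).1 (im_inf hinf).2.1 (im_inf hinf).2.2

theorem fu2_inf (hinf : HasOddDensity (fun m => height m = ⊤) (1 - δ)) :
    L0h19.QE.FU2 (fun n => ind (fun m => height m = ⊤) 0 n - (1 - δ)) :=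
  fur2 1 _ _ le_rfl (im_inf hinf).1 (im_inf hinf).2.1 (im_inf hinf).2.2

theorem fu_level (hlev : ∀ (q : ℕ) (b : ℤ) (x : ℝ), 1 ≤ q → HasOddDensity (Level q b x) (δ * Phi x / q))
    {q : ℕ} (hq : 1 ≤ q) (b : ℤ) (x : ℝ) :
    L0h87.LE.FU (fun n => ind (Level q b x) 0 n - δ * Phi x / q) :=
  L0h87.LE.fur hRHO hGEO hBES hSML hq (im_level hlev hq b x).1 (im_level hlev hq b x).2.1
    (im_level hlev hq b x).2.2

theorem fu2_level (hlev : ∀ (q : ℕ) (b : ℤ) (x : ℝ), 1 ≤ q → HasOddDensity (Level q b x) (δ * Phi x / q))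
    {q : ℕ} (hq : 1 ≤ q) (b : ℤ) (x : ℝ) :
    L0h19.QE.FU2 (fun n => ind (Level q b x) 0 n - δ * Phi x / q) :=
  fur2 q _ _ hq (im_level hlev hq b x).1 (im_level hlev hq b x).2.1 (im_level hlev hq b x).2.2

theorem weight_small (hfin : HasOddDensity (fun m => height m ≠ ⊤) δ)
    (hinf : HasOddDensity (fun m => height m = ⊤) (1 - δ))
    (hlev : ∀ (q : ℕ) (b : ℤ) (x : ℝ), 1 ≤ q → HasOddDensity (Level q b x) (δ * Phi x / q))
    (hno : ∀ η : ℝ, 0 < η → HasOddDensity (fun m => ∃ h : ℕ, height m = h ∧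
      |(h : ℝ) - 2 / Real.log (16 / 9) * Real.log m| ≤ η * Real.log m) δ)
    {W : ℕ → ℕ → ℝ} {V : ℝ} (h : HeightWeight δ W V) :
    (∃ B : ℝ, ∀ N m, |W N m| ≤ B) ∧ FN W V ∧ L0h19.QE.FN2 W V := by
  have hind : ∀ (P : ℕ → Prop), ∃ B : ℝ, ∀ N m, |ind P N m| ≤ B := fun P => ⟨1, fun N m => by
    unfold ind
    split_ifs <;> simp⟩
  have hneg : ∀ n : ℕ, ((ind (fun m => height m ≠ ⊤) 0 n - δ : ℝ) : ℂ) =
      -((ind (fun m => height m = ⊤) 0 n - (1 - δ) : ℝ) : ℂ) := by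
    intro n
    unfold ind
    by_cases h : height n = ⊤ <;> simp [h]
  cases h with
  | infinite => exact ⟨hind _, fu_inf hinf, fu2_inf hinf⟩
  | finite =>
    refine ⟨hind _, fun ε hε => ?_, fun ε hε => ?_⟩
    · obtain ⟨N₀, h⟩ := fu_inf hinf ε hε
      refine ⟨N₀, fun N hN α => ?_⟩
      have e : L0h87.LE.S (fun m => ind (fun m => height m ≠ ⊤) N m - δ) N α =
          -L0h87.LE.S (fun n => ind (fun m => height m = ⊤) 0 n - (1 - δ)) N α := by
        unfold L0h87.LE.S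
        rw [← Finset.sum_neg_distrib]
        refine Finset.sum_congr rfl fun n _ => ?_
        rw [← neg_mul, ← hneg]
        rfl
      rw [e, norm_neg]
      exact h N hN α
    · obtain ⟨N₀, h⟩ := fu2_inf hinf ε hε
      refine ⟨N₀, fun N hN α => ?_⟩
      have e : L0h19.QE.S2 (fun m => ind (fun m => height m ≠ ⊤) N m - δ) N α =
          -L0h19.QE.S2 (fun n => ind (fun m => height m = ⊤) 0 n - (1 - δ)) N α := by
        unfold L0h19.QE.S2
        rw [← Finset.sum_neg_distrib]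
        refine Finset.sum_congr rfl fun n _ => ?_
        rw [← neg_mul, ← hneg]
        rfl
      rw [e, norm_neg]
      exact h N hN α
  | level q b x hq => exact ⟨hind _, fu_level hlev hq b x, fu2_level hlev hq b x⟩
  | average Λ hΛ =>
    have e : (fun n => ind (fun m => height m = ⊤) 0 n - (1 - δ)) =
        fun n => (if height n = ⊤ then 1 else 0) - (1 - δ) := by
      funext n
      unfold ind
      by_cases h : height n = ⊤ <;> simp [h]
    refine ⟨⟨Λ, fun N m => ?_⟩, fun ε hε => ?_, fun ε hε => ?_⟩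
    · have hΛ0 : 0 < Λ := lt_trans (div_pos two_pos (Real.log_pos (by norm_num))) hΛ
      have hl := Real.log_natCast_nonneg N
      rw [abs_of_nonneg (div_nonneg (Nat.cast_nonneg _) hl)]
      rcases hl.eq_or_lt with h0 | h0
      · rw [← h0, div_zero]
        exact hΛ0.le
      · rw [div_le_iff₀ h0]
        refine le_trans ?_ (Nat.floor_le (by positivity : 0 ≤ Λ * Real.log N))
        have h1 : truncHeight m ⌊Λ * Real.log N⌋₊ ≤ ⌊Λ * Real.log N⌋₊ := by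
          unfold truncHeight
          have h2 := ENat.toNat_le_toNat (min_le_right (height m) (⌊Λ * Real.log N⌋₊ : ℕ∞)) (ENat.natCast_ne_top _)
          rwa [ENat.toNat_natCast] at h2
        exact_mod_cast h1
    · have h1 := fu_inf hinf
      rw [e] at h1
      exact hAVG height δ (by convert h1 using 3) hfin hno Λ hΛ ε hε
    · have h1 := fu2_inf hinf
      rw [e] at h1
      exact hAVQ height δ (by convert h1 using 3) hfin hno Λ hΛ ε hε
  | one =>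
    refine ⟨⟨1, fun _ _ => by simp⟩, fun ε hε => ⟨0, fun N _ α => ?_⟩, fun ε hε => ⟨0, fun N _ α => ?_⟩⟩
    · have e : L0h87.LE.S (fun _ => (1 : ℝ) - 1) N α = 0 := by
        unfold L0h87.LE.S
        simp
      rw [e, norm_zero]
      positivity
    · have e : L0h19.QE.S2 (fun _ => (1 : ℝ) - 1) N α = 0 := by
        unfold L0h19.QE.S2
        simp
      rw [e, norm_zero]
      positivity

theorem indep {k : ℕ} (hk : 3 ≤ k) {W : Fin k → ℕ → ℕ → ℝ} {V : Fin k → ℝ}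
    (h : ∀ i, (∃ B : ℝ, ∀ N m, |W i N m| ≤ B) ∧ FN (W i) (V i)) : Independent 1 W V := by
  intro ε hε
  choose B hB using fun i => (h i).1
  obtain ⟨D, hD⟩ : ∃ D : ℝ, D = ∑ i, (|B i| + |V i|) := ⟨_, rfl⟩
  have hterm : ∀ i, |B i| + |V i| ≤ D := fun i => by
    rw [hD]
    exact Finset.single_le_sum (f := fun i => |B i| + |V i|) (fun j _ => by positivity) (mem_univ i)
  have hD0 : 0 ≤ D := by
    rw [hD]
    exact Finset.sum_nonneg fun i _ => by positivity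
  have hu : ∀ i N m, |W i N m| ≤ D := fun i N m => by
    have := hterm i
    have h1 := hB i N m
    have h2 := le_abs_self (B i)
    have h3 := abs_nonneg (V i)
    linarith
  have hv : ∀ i, |V i| ≤ D := fun i => by
    have := hterm i
    have h3 := abs_nonneg (B i)
    linarith
  obtain ⟨ε', hε'⟩ : ∃ ε' : ℝ, ε' = ε / (k * (2 * D) ^ (k - 1) + 1) := ⟨_, rfl⟩
  have hε0 : 0 < ε' := by rw [hε']; positivity
  choose N₀ hN₀ using fun i => (h i).2 ε' hε0
  refine ⟨Finset.univ.sup N₀, fun N hN a ha n => ?_⟩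
  have h1 := hHYB k hk a ha N n D (ε' * N) (fun i m => W i N m) (fun i _ => V i) hD0 (by positivity)
    (fun i m => hu i N m) (fun i _ => hv i)
    (fun i α => hN₀ i N ((Finset.le_sup (mem_univ i)).trans hN) α)
  rw [sol_one]
  have e1 : L0h87.LE.G a N n (fun i _ => V i) = (∏ i, V i) * (L0h87.LE.sol a N n).card := by
    unfold L0h87.LE.G
    rw [Finset.sum_const, nsmul_eq_mul, mul_comm]
    rfl
  rw [e1] at h1
  refine h1.trans ?_
  have e2 : (N : ℝ) ^ (k - 1) = N ^ (k - 2) * N := by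
    rw [← pow_succ]
    congr 1
    omega
  rw [e2]
  have hP : 0 ≤ (N : ℝ) ^ (k - 2) * N := by positivity
  have h3 : k * (ε' * (2 * D) ^ (k - 1)) ≤ ε := by
    rw [hε']
    have h4 : 0 ≤ (k : ℝ) * (2 * D) ^ (k - 1) := by positivity
    have e3 : (k : ℝ) * (ε / (k * (2 * D) ^ (k - 1) + 1) * (2 * D) ^ (k - 1)) =
        ε * (k * (2 * D) ^ (k - 1) / (k * (2 * D) ^ (k - 1) + 1)) := by ring
    rw [e3]
    refine mul_le_of_le_one_right hε.le ?_
    rw [div_le_one (by positivity)]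
    linarith
  calc (k : ℝ) * (ε' * N * (2 * D) ^ (k - 1) * N ^ (k - 2)) =
        k * (ε' * (2 * D) ^ (k - 1)) * (N ^ (k - 2) * N) := by ring
    _ ≤ ε * (N ^ (k - 2) * N) := mul_le_mul_of_nonneg_right h3 hP

theorem G2_one {k : ℕ} (a : Fin k → ℤ) (N : ℕ) (n : ℤ) :
    L0h19.QE.G2 a N n (fun _ _ => 1) = (solutions 2 a N n).card := by
  unfold L0h19.QE.G2
  simp only [Finset.prod_const_one]
  rw [Finset.sum_const, nsmul_eq_mul, mul_one]
  rfl

theorem indep2 {k : ℕ} (hk : 7 ≤ k) {W : Fin k → ℕ → ℕ → ℝ} {V : Fin k → ℝ}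
    (h : ∀ i, (∃ B : ℝ, ∀ N m, |W i N m| ≤ B) ∧ L0h19.QE.FN2 (W i) (V i)) :
    Independent 2 W V := by
  intro ε hε
  obtain ⟨N₀, h0⟩ := L0h19.QE.indep hyq hk h ε hε
  refine ⟨N₀, fun N hN a ha n => ?_⟩
  have h1 := h0 N hN a ha n
  rw [G2_one] at h1
  exact h1

end

theorem ratio_close {s c P ε' N : ℝ} (hN : 0 < N) (h1 : |s - P * c| ≤ ε' * N ^ 2) (h2 : N ^ 2 / 64 ≤ c) :
    |s / c - P| ≤ 64 * ε' := by
  have hc : 0 < c := lt_of_lt_of_le (by positivity) h2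
  have hε : 0 ≤ ε' := by
    have : 0 ≤ ε' * N ^ 2 := (abs_nonneg _).trans h1
    exact nonneg_of_mul_nonneg_left this (by positivity)
  have e : s / c - P = (s - P * c) / c := by field_simp
  rw [e, abs_div, abs_of_pos hc, div_le_iff₀ hc]
  refine h1.trans ?_
  have : ε' * N ^ 2 = 64 * ε' * (N ^ 2 / 64) := by ring
  rw [this]
  exact mul_le_mul_of_nonneg_left h2 (by positivity)

theorem ap {W : Fin 3 → ℕ → ℕ → ℝ} {V : Fin 3 → ℝ} (hAP : L0h87.LE.AP3) (h : Independent 1 W V) :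
    Tendsto (fun N => mean 1 ![1, -2, 1] W N 0) atTop (𝓝 (∏ i, V i)) := by
  rw [Metric.tendsto_atTop]
  intro ε hε
  obtain ⟨N₀, h0⟩ := h (ε / 128) (by positivity)
  refine ⟨max N₀ 8, fun N hN => ?_⟩
  have h8 : 8 ≤ N := (le_max_right _ _).trans hN
  have h1 := h0 N ((le_max_left _ _).trans hN) ![1, -2, 1] (by intro i; fin_cases i <;> simp) 0
  have h2 := hAP N h8
  rw [Real.dist_eq]
  unfold mean
  rw [sol_one] at h1 ⊢
  have := ratio_close (by exact_mod_cast (by omega : 0 < N)) h1 h2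
  refine lt_of_le_of_lt this ?_
  linarith

theorem sm {W : Fin 3 → ℕ → ℕ → ℝ} {V : Fin 3 → ℝ} (hSM : L0h87.LE.SM3) (h : Independent 1 W V) :
    ∀ ε : ℝ, 0 < ε → ∃ n₀ : ℕ, ∀ n : ℕ, n₀ ≤ n → Odd n → |mean 1 ![1, 1, 1] W n n - ∏ i, V i| ≤ ε := by
  intro ε hε
  obtain ⟨N₀, h0⟩ := h (ε / 64) (by positivity)
  refine ⟨max N₀ 9, fun N hN hodd => ?_⟩
  have h9 : 9 ≤ N := (le_max_right _ _).trans hN
  have h1 := h0 N ((le_max_left _ _).trans hN) ![1, 1, 1] (by intro i; fin_cases i <;> simp) N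
  have h2 := hSM N (Nat.odd_iff.1 hodd) h9
  unfold mean
  rw [sol_one] at h1 ⊢
  have := ratio_close (by exact_mod_cast (by omega : 0 < N)) h1 h2
  refine this.trans (le_of_eq ?_)
  ring

theorem me {W : Fin 8 → ℕ → ℕ → ℝ} {V : Fin 8 → ℝ}
    (h : ∀ ε : ℝ, 0 < ε → ∃ N₀ : ℕ, ∀ N : ℕ, N₀ ≤ N → ∀ a : Fin 8 → ℤ, (∀ i, a i ≠ 0) → ∀ n : ℤ,
      |L0h19.QE.G2 a N n (fun i => W i N) - (∏ i, V i) * L0h19.QE.G2 a N n (fun _ _ => 1)| ≤ ε * N ^ (8 - 2)) :
    Tendsto (fun N => mean 2 ![1, 1, 1, 1, -1, -1, -1, -1] W N 0) atTop (𝓝 (∏ i, V i)) := by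
  have h1 := L0h19.QE.mean_eight L0h19.QE.lob h
  simp only [G2_one] at h1
  exact h1

theorem rep_sol (N n : ℕ) (u v : ℕ → ℝ) : L0h87.LE.rep N n u v =
    ∑ m ∈ solutions (k := 2) 1 (fun _ => 1) N n, u (m 0) * v (m 1) := by
  rw [L0h85.LE.rep_prod, ← Finset.sum_filter]
  refine Finset.sum_nbij' (fun p => ![p.1, p.2]) (fun m => (m 0, m 1)) ?_ ?_ ?_ ?_ ?_
  · intro p hp
    rw [Finset.mem_filter, Finset.mem_product] at hp
    obtain ⟨⟨h1, h2⟩, h3⟩ := hp
    unfold solutions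
    rw [Finset.mem_filter, Fintype.mem_piFinset]
    refine ⟨?_, ?_⟩
    · intro i
      fin_cases i
      · exact h1
      · exact h2
    · rw [Fin.sum_univ_two]
      simp only [Matrix.cons_val_zero, Matrix.cons_val_one, pow_one, one_mul]
      exact_mod_cast h3
  · intro m hm
    unfold solutions at hm
    rw [Finset.mem_filter, Fintype.mem_piFinset] at hm
    obtain ⟨h1, h2⟩ := hm
    rw [Finset.mem_filter, Finset.mem_product]
    refine ⟨⟨h1 0, h1 1⟩, ?_⟩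
    rw [Fin.sum_univ_two] at h2
    simp only [pow_one, one_mul] at h2
    exact_mod_cast h2
  · intro p _
    rfl
  · intro m _
    funext i
    fin_cases i <;> rfl
  · intro p _
    rfl

theorem rp_sol (N n : ℕ) (w : Fin 4 → ℕ → ℝ) : L0h19.QE.rp w N n =
    ∑ m ∈ solutions 2 (fun _ => 1) N n, ∏ i, w i (m i) := by
  unfold L0h19.QE.rp solutions
  refine Finset.sum_congr ?_ fun _ _ => rfl
  have h : ∀ m : Fin 4 → ℕ, (∑ i, m i ^ 2 = n) ↔ (∑ i, (1 : ℤ) * (m i : ℤ) ^ 2 = (n : ℤ)) := by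
    intro m
    simp only [one_mul]
    exact_mod_cast Iff.rfl
  ext m
  simp only [Finset.mem_filter, h]
  rfl

theorem indep_four {N : ℕ} {ε : ℝ} (W : Fin 4 → ℕ → ℕ → ℝ) (V : Fin 4 → ℝ)
    (h : |∑ m ∈ solutions 1 ![1, 1, -1, -1] N 0, ∏ i, W i N (m i) -
      (∏ i, V i) * (solutions 1 ![1, 1, -1, -1] N 0).card| ≤ ε * N ^ (4 - 1)) :
    |L0h87.LE.G ![1, 1, -1, -1] N 0 ![W 0 N, W 1 N, W 2 N, W 3 N] -
      V 0 * V 1 * V 2 * V 3 * L0h87.LE.G ![1, 1, -1, -1] N 0 ![1, 1, 1, 1]| ≤ ε * N ^ 3 := by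
  rw [sol_one] at h
  have e1 : L0h87.LE.G ![1, 1, -1, -1] N 0 ![W 0 N, W 1 N, W 2 N, W 3 N] =
      ∑ m ∈ L0h87.LE.sol ![1, 1, -1, -1] N 0, ∏ i, W i N (m i) := by
    unfold L0h87.LE.G
    refine Finset.sum_congr rfl fun m _ => ?_
    rw [Fin.prod_univ_four, Fin.prod_univ_four]
    rfl
  have e2 : L0h87.LE.G ![1, 1, -1, -1] N 0 ![1, 1, 1, 1] =
      (L0h87.LE.sol ![1, 1, -1, -1] N 0).card := by
    unfold L0h87.LE.G
    have : ∀ m : Fin 4 → ℕ, ∏ i, (![1, 1, 1, 1] : Fin 4 → ℕ → ℝ) i (m i) = 1 := by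
      intro m
      rw [Fin.prod_univ_four]
      simp
    simp only [this]
    rw [Finset.sum_const, nsmul_eq_mul, mul_one]
    rfl
  rw [e1, e2, ← Fin.prod_univ_four]
  exact h

theorem binary {δ : ℝ} {W : Fin 2 → ℕ → ℕ → ℝ} {V : Fin 2 → ℝ}
    (hi : ∀ k : ℕ, 3 ≤ k → ∀ (W : Fin k → ℕ → ℕ → ℝ) (V : Fin k → ℝ), (∀ i, HeightWeight δ (W i) (V i)) →
      Independent 1 W V) (h : ∀ i, HeightWeight δ (W i) (V i)) : AlmostAllSums 1 W V := by
  intro ε hε
  obtain ⟨p, hp⟩ : ∃ p : ℝ, p = V 0 * V 1 := ⟨_, rfl⟩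
  obtain ⟨ε', hε'⟩ : ∃ ε' : ℝ, ε' = ε ^ 3 / (1 + 2 * |p|) := ⟨_, rfl⟩
  have hp0 : 0 < 1 + 2 * |p| := by positivity
  have hε0 : 0 < ε' := by rw [hε']; positivity
  obtain ⟨N₁, h1⟩ := hi 4 (by norm_num) ![W 0, W 1, W 0, W 1] ![V 0, V 1, V 0, V 1]
    (by intro i; fin_cases i; exacts [h 0, h 1, h 0, h 1]) ε' hε0
  obtain ⟨N₂, h2⟩ := hi 4 (by norm_num) ![W 0, W 1, fun _ _ => 1, fun _ _ => 1] ![V 0, V 1, 1, 1]
    (by intro i; fin_cases i; exacts [h 0, h 1, HeightWeight.one, HeightWeight.one]) ε' hε0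
  refine ⟨max 1 (max N₁ N₂), fun N hN => ?_⟩
  have hN1 : N₁ ≤ N := (le_max_left _ _).trans ((le_max_right _ _).trans hN)
  have hN2 : N₂ ≤ N := (le_max_right _ _).trans ((le_max_right _ _).trans hN)
  have hN0 : (0 : ℝ) < N := by exact_mod_cast (by have := (le_max_left _ _).trans hN; omega : 0 < N)
  have ha : ∀ i, (![1, 1, -1, -1] : Fin 4 → ℤ) i ≠ 0 := by intro i; fin_cases i <;> simp
  have g1 := indep_four _ _ (h1 N hN1 ![1, 1, -1, -1] ha 0)
  have g2 := indep_four _ _ (h2 N hN2 ![1, 1, -1, -1] ha 0)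
  have key := hBIN N (W 0 N) (W 1 N) p (ε' * N ^ 3) (by
    refine le_of_eq_of_le ?_ g1
    have e : p ^ 2 = V 0 * V 1 * V 0 * V 1 := by rw [hp]; ring
    rw [e]
    rfl) (by
    refine le_of_eq_of_le ?_ g2
    have e : p = V 0 * V 1 * 1 * 1 := by rw [hp]; ring
    rw [e]
    rfl)
  have e3 : (1 + 2 * |p|) * (ε' * N ^ 3) = ε ^ 3 * N ^ 3 := by
    rw [hε']
    field_simp
  rw [e3] at key
  have hrep : ∀ n : ℕ, ∑ m ∈ solutions 1 (fun _ => 1) N n, ∏ i, W i N (m i) -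
      (∏ i, V i) * (solutions (k := 2) 1 (fun _ => 1) N n).card =
      L0h87.LE.rep N n (W 0 N) (W 1 N) - p * L0h87.LE.rep N n 1 1 := by
    intro n
    rw [rep_sol, rep_sol, Fin.prod_univ_two, hp]
    simp only [Fin.prod_univ_two, Pi.one_apply, mul_one]
    rw [Finset.sum_const, nsmul_eq_mul, mul_one]
  obtain ⟨T, hT⟩ : ∃ T : Set ℕ, T = {n : ℕ | n ≤ N ^ 1 ∧ ε * N ^ (2 - 1) <
    |∑ m ∈ solutions 1 (fun _ => 1) N n, ∏ i, W i N (m i) -
      (∏ i, V i) * (solutions (k := 2) 1 (fun _ => 1) N n).card|} := ⟨_, rfl⟩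
  rw [← hT]
  have hfin : T.Finite := by
    rw [hT]
    exact (Set.finite_Iic (N ^ 1)).subset fun n hn => hn.1
  rw [Set.ncard_eq_toFinset_card T hfin]
  have hsub : hfin.toFinset ⊆ range (2 * N + 1) := by
    intro n hn
    rw [Set.Finite.mem_toFinset, hT] at hn
    have := hn.1
    rw [pow_one] at this
    rw [Finset.mem_range]
    omega
  have hle : ∑ n ∈ hfin.toFinset, (ε * N) ^ 2 ≤ ε ^ 3 * N ^ 3 := by
    refine le_trans ?_ ((Finset.sum_le_sum_of_subset_of_nonneg hsub fun _ _ _ => sq_nonneg _).trans key)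
    refine Finset.sum_le_sum fun n hn => ?_
    rw [Set.Finite.mem_toFinset, hT] at hn
    obtain ⟨-, h5⟩ := hn
    rw [hrep n] at h5
    have e6 : (N : ℝ) ^ (2 - 1) = N := by norm_num
    rw [e6] at h5
    rw [← sq_abs (L0h87.LE.rep N n (W 0 N) (W 1 N) - _)]
    exact pow_le_pow_left₀ (by positivity) h5.le 2
  rw [Finset.sum_const, nsmul_eq_mul] at hle
  have hpos : 0 < (ε * N) ^ 2 := by positivity
  rw [← mul_le_mul_iff_of_pos_right hpos]
  refine hle.trans (le_of_eq ?_)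
  ring

theorem quaternary {δ : ℝ} {W : Fin 4 → ℕ → ℕ → ℝ} {V : Fin 4 → ℝ}
    (hi : ∀ k : ℕ, 7 ≤ k → ∀ (W : Fin k → ℕ → ℕ → ℝ) (V : Fin k → ℝ), (∀ i, HeightWeight δ (W i) (V i)) →
      ∀ ε : ℝ, 0 < ε → ∃ N₀ : ℕ, ∀ N : ℕ, N₀ ≤ N → ∀ a : Fin k → ℤ, (∀ i, a i ≠ 0) → ∀ n : ℤ,
        |L0h19.QE.G2 a N n (fun i => W i N) - (∏ i, V i) * L0h19.QE.G2 a N n (fun _ _ => 1)| ≤ ε * N ^ (k - 2))
    (h : ∀ i, HeightWeight δ (W i) (V i)) : AlmostAllSums 2 W V := by
  have h1 := hi 8 (by norm_num) ![W 0, W 1, W 2, W 3, W 0, W 1, W 2, W 3]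
    ![V 0, V 1, V 2, V 3, V 0, V 1, V 2, V 3] (by
      intro i
      fin_cases i
      exacts [h 0, h 1, h 2, h 3, h 0, h 1, h 2, h 3])
  have h2 := hi 8 (by norm_num) ![W 0, W 1, W 2, W 3, fun _ _ => 1, fun _ _ => 1, fun _ _ => 1, fun _ _ => 1]
    ![V 0, V 1, V 2, V 3, 1, 1, 1, 1] (by
      intro i
      fin_cases i
      exacts [h 0, h 1, h 2, h 3, HeightWeight.one, HeightWeight.one, HeightWeight.one, HeightWeight.one])
  have e1 : ∀ N, L0h19.QE.G2 L0h19.QE.a8 N 0 (fun i => (![W 0, W 1, W 2, W 3, W 0, W 1, W 2, W 3] :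
      Fin 8 → ℕ → ℕ → ℝ) i N) =
      L0h19.QE.G2 L0h19.QE.a8 N 0 ![W 0 N, W 1 N, W 2 N, W 3 N, W 0 N, W 1 N, W 2 N, W 3 N] := by
    intro N
    congr 1
    funext i
    fin_cases i <;> rfl
  have e2 : ∀ N, L0h19.QE.G2 L0h19.QE.a8 N 0 (fun i => (![W 0, W 1, W 2, W 3, fun _ _ => 1, fun _ _ => 1,
      fun _ _ => 1, fun _ _ => 1] : Fin 8 → ℕ → ℕ → ℝ) i N) =
      L0h19.QE.G2 L0h19.QE.a8 N 0 ![W 0 N, W 1 N, W 2 N, W 3 N, 1, 1, 1, 1] := by
    intro N
    congr 1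
    funext i
    fin_cases i <;> rfl
  have p1 : ∏ i, (![V 0, V 1, V 2, V 3, V 0, V 1, V 2, V 3] : Fin 8 → ℝ) i = (∏ i, V i) ^ 2 := by
    rw [Fin.prod_univ_eight, Fin.prod_univ_four]
    simp only [Matrix.cons_val]
    ring
  have p2 : ∏ i, (![V 0, V 1, V 2, V 3, 1, 1, 1, 1] : Fin 8 → ℝ) i = ∏ i, V i := by
    rw [Fin.prod_univ_eight, Fin.prod_univ_four]
    simp only [Matrix.cons_val]
    ring
  rw [p1] at h1
  rw [p2] at h2
  intro ε hε
  obtain ⟨N₀, h0⟩ := L0h19.QE.four (W := W) (P := ∏ i, V i) L0h19.QE.biq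
    (fun ε hε => by
      obtain ⟨N₀, h0⟩ := h1 ε hε
      refine ⟨N₀, fun N hN => ?_⟩
      have := h0 N hN L0h19.QE.a8 L0h19.QE.eight_ne 0
      rw [e1] at this
      exact this)
    (fun ε hε => by
      obtain ⟨N₀, h0⟩ := h2 ε hε
      refine ⟨N₀, fun N hN => ?_⟩
      have := h0 N hN L0h19.QE.a8 L0h19.QE.eight_ne 0
      rw [e2] at this
      exact this) ε hε
  refine ⟨N₀ + 1, fun N hN => ?_⟩
  have h3 := h0 N (by omega)
  have hrp : ∀ n : ℕ, ∑ m ∈ solutions 2 (fun _ => 1) N n, ∏ i, W i N (m i) -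
      (∏ i, V i) * (solutions (k := 4) 2 (fun _ => 1) N n).card =
      L0h19.QE.rp (fun i => W i N) N n - (∏ i, V i) * L0h19.QE.rp (fun _ _ => 1) N n := by
    intro n
    rw [rp_sol, rp_sol]
    simp only [Finset.prod_const_one]
    rw [Finset.sum_const, nsmul_eq_mul, mul_one]
  refine le_trans ?_ h3
  have hfin : {n : ℕ | ε * N ^ 2 < |L0h19.QE.rp (fun i => W i N) N n -
      (∏ i, V i) * L0h19.QE.rp (fun _ _ => 1) N n|}.Finite := by
    have hbig : ∀ n, 4 * N ^ 2 < n → ∀ w : Fin 4 → ℕ → ℝ, L0h19.QE.rp w N n = 0 := by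
      intro n hn w
      unfold L0h19.QE.rp
      refine Finset.sum_eq_zero fun m hm => ?_
      exfalso
      rw [Finset.mem_filter, Fintype.mem_piFinset] at hm
      have h4 : ∀ i, m i ^ 2 ≤ N ^ 2 := by
        intro i
        have := hm.1 i
        unfold L0h87.LE.odds at this
        rw [Finset.mem_filter, Finset.mem_Icc] at this
        exact Nat.pow_le_pow_left this.1.2 2
      have h5 := hm.2
      rw [Fin.sum_univ_four] at h5
      have := h4 0
      have := h4 1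
      have := h4 2
      have := h4 3
      omega
    refine (Set.finite_Iio (4 * N ^ 2 + 1)).subset fun n hn => ?_
    by_contra h
    rw [Set.mem_Iio, not_lt] at h
    have h6 : ε * N ^ 2 < |L0h19.QE.rp (fun i => W i N) N n -
      (∏ i, V i) * L0h19.QE.rp (fun _ _ => 1) N n| := hn
    rw [hbig n (by omega), hbig n (by omega)] at h6
    simp only [mul_zero, sub_zero, abs_zero] at h6
    have : 0 ≤ ε * (N : ℝ) ^ 2 := by positivity
    linarith
  have hsub : {n : ℕ | n ≤ N ^ 2 ∧ ε * N ^ (4 - 2) < |∑ m ∈ solutions 2 (fun _ => 1) N n, ∏ i, W i N (m i) -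
      (∏ i, V i) * (solutions (k := 4) 2 (fun _ => 1) N n).card|} ⊆
      {n : ℕ | ε * N ^ 2 < |L0h19.QE.rp (fun i => W i N) N n -
      (∏ i, V i) * L0h19.QE.rp (fun _ _ => 1) N n|} := by
    rintro n ⟨-, h5⟩
    rw [hrp n] at h5
    exact h5
  exact_mod_cast Set.ncard_le_ncard hsub hfin

theorem result : ∃ δ : ℝ, 0 < δ ∧ δ ≤ 1 ∧ (δ = 1 ↔ ∀ m : ℕ, Odd m → height m ≠ ⊤) ∧
    HasOddDensity (fun m => height m ≠ ⊤) δ ∧
    (∀ d : ℕ, d = 1 ∨ d = 2 → ∀ (W : ℕ → ℕ → ℝ) (V : ℝ), HeightWeight δ W V → SmallExpSums d W V) ∧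
    (∀ d k : ℕ, d = 1 ∧ 3 ≤ k ∨ d = 2 ∧ 7 ≤ k → ∀ (W : Fin k → ℕ → ℕ → ℝ) (V : Fin k → ℝ),
      (∀ i, HeightWeight δ (W i) (V i)) → Independent d W V) ∧
    (∀ (W : Fin 3 → ℕ → ℕ → ℝ) (V : Fin 3 → ℝ), (∀ i, HeightWeight δ (W i) (V i)) →
      Tendsto (fun N => mean 1 ![1, -2, 1] W N 0) atTop (𝓝 (∏ i, V i)) ∧
      ∀ ε : ℝ, 0 < ε → ∃ n₀ : ℕ, ∀ n : ℕ, n₀ ≤ n → Odd n → |mean 1 ![1, 1, 1] W n n - ∏ i, V i| ≤ ε) ∧
    (∀ (W : Fin 8 → ℕ → ℕ → ℝ) (V : Fin 8 → ℝ), (∀ i, HeightWeight δ (W i) (V i)) →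
      Tendsto (fun N => mean 2 ![1, 1, 1, 1, -1, -1, -1, -1] W N 0) atTop (𝓝 (∏ i, V i))) ∧
    (∀ d s : ℕ, d = 1 ∧ s = 2 ∨ d = 2 ∧ s = 4 → ∀ (W : Fin s → ℕ → ℕ → ℝ) (V : Fin s → ℝ),
      (∀ i, HeightWeight δ (W i) (V i)) → AlmostAllSums d W V) ∧
    (∀ (W : Fin 2 → ℕ → ℕ → ℝ) (V : Fin 2 → ℝ), (∀ i, HeightWeight δ (W i) (V i)) →
      PolyIndependent W V) := by
  obtain ⟨δ, h0, h1, h2, h3, h4, h5, h6⟩ := data
  have hw : ∀ {W : ℕ → ℕ → ℝ} {V : ℝ}, HeightWeight δ W V →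
      (∃ B : ℝ, ∀ N m, |W N m| ≤ B) ∧ FN W V ∧ L0h19.QE.FN2 W V := fun h => weight_small h3 h4 h5 h6 h
  have hi : ∀ k : ℕ, 3 ≤ k → ∀ (W : Fin k → ℕ → ℕ → ℝ) (V : Fin k → ℝ), (∀ i, HeightWeight δ (W i) (V i)) →
      Independent 1 W V := fun k hk W V h => indep hk fun i => ⟨(hw (h i)).1, (hw (h i)).2.1⟩
  have hi2 : ∀ k : ℕ, 7 ≤ k → ∀ (W : Fin k → ℕ → ℕ → ℝ) (V : Fin k → ℝ), (∀ i, HeightWeight δ (W i) (V i)) →
      ∀ ε : ℝ, 0 < ε → ∃ N₀ : ℕ, ∀ N : ℕ, N₀ ≤ N → ∀ a : Fin k → ℤ, (∀ i, a i ≠ 0) → ∀ n : ℤ,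
        |L0h19.QE.G2 a N n (fun i => W i N) - (∏ i, V i) * L0h19.QE.G2 a N n (fun _ _ => 1)| ≤ ε * N ^ (k - 2) :=
    fun k hk W V h => L0h19.QE.indep hyq hk fun i => ⟨(hw (h i)).1, (hw (h i)).2.2⟩
  refine ⟨δ, h0, h1, h2, h3, ?_, ?_, fun W V h =>
    ⟨ap L0h56.LE.AP3 (hi 3 le_rfl W V h), sm L0h56.LE.SM3 (hi 3 le_rfl W V h)⟩,
    fun W V h => me (hi2 8 (by norm_num) W V h), ?_, fun W V h f hd hl a b ha hb B ε hε =>
      L0h57.PQ.twoOdd ⟨(hw (h 0)).1, (hw (h 0)).2.1⟩ ⟨(hw (h 1)).1, (hw (h 1)).2.1⟩ hd hl ha hb B ε hε⟩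
  · rintro d (rfl | rfl) W V h
    · intro ε hε
      obtain ⟨N₀, h7⟩ := (hw h).2.1 ε hε
      refine ⟨N₀, fun N hN α => ?_⟩
      have h8 := h7 N hN α
      simp only [pow_one]
      exact h8
    · exact (hw h).2.2
  · rintro d k (⟨rfl, hk⟩ | ⟨rfl, hk⟩) W V h
    · exact hi k hk W V h
    · exact indep2 hk fun i => ⟨(hw (h i)).1, (hw (h i)).2.2⟩
  · rintro d s (⟨rfl, rfl⟩ | ⟨rfl, rfl⟩) W V h
    · exact binary hi h
    · exact quaternary hi2 h

end proof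

end Pool.Agent.Results.MP_2b866c_nt.DiagonalEquations
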