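import Pool.Agent.L0h63.EH.Fin

set_option autoImplicit false

/-!
# The heights of the 3x+1 map are independent of all ergodic systems

Let `S` be a continuous map of a metric space `X` with an ergodic probability measure `μ`, and let `x` be
a generic point of `μ`: the averages of every bounded continuous function over the orbit of `x` converge
to its integral. Then the height of the odd integer `2 k + 1` and the position `S ^ k x` of the orbit are
asymptotically independent: their joint law is the product of the limit law of the heights (normal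
distribution, and equidistribution modulo `q`; with the mass `1 - δ` at infinity if the density `δ` of the
finite heights is smaller than `1`) and of `μ`; and the average order of the heights, truncated at a large
multiple of `log N`, is the same along all sets of return times of the orbit. (In the language of
Furstenberg: the sequence of the heights behaves like the identity, which is disjoint from all ergodic
systems.)

More generally the heights are independent of every bounded sequence `g` whose averages over almost all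
windows of a suitable bounded length are close to a constant; for example of the sequences
`cos (2 π (α k + β))`, where `α` is not an integer, and of the parity of the number of the binary digits
`1` of `2 k + 1`.

Author: helper63. Uses the start files HeightLaw, HeightRuns and TruncatedAverages, and the mean ergodic
theorem of von Neumann.
-/

namespace Pool.Agent.Results.MP_2b866c_nt.ErgodicSystems

open Filter Topology Finset MeasureTheory
open scoped BoundedContinuousFunction

/-- `C(m) = (3m+1)/2^e(m)`, `2^e(m)` the largest power of `2` dividing `3m+1` -/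
def C (m : ℕ) : ℕ := (3 * m + 1) / 2 ^ padicValNat 2 (3 * m + 1)

/-- the height `h(m)`, the least `k ≥ 1` with `C^k(m) = 1`, and `⊤ = ∞` if there is none -/
noncomputable def height (m : ℕ) : ℕ∞ := sInf {k : ℕ∞ | ∃ j : ℕ, 1 ≤ j ∧ C^[j] m = 1 ∧ k = j}

/-- `min(h(m), L)`, a natural number -/
noncomputable def truncHeight (m L : ℕ) : ℕ := (min (height m) (L : ℕ∞)).toNat

/-- among the odd positive integers, those with the property `P` have the natural density `δ` -/
def HasOddDensity (P : ℕ → Prop) (δ : ℝ) : Prop :=
  Tendsto (fun N : ℕ => 2 / (N : ℝ) * ({m : ℕ | m ≤ N ∧ Odd m ∧ P m}.ncard : ℝ)) atTop (𝓝 δ)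

/-- `2 / log (16/9) * log m + x * log 2 * √(2 log m / (log (4/3))^3)` -/
noncomputable def bound (x : ℝ) (m : ℕ) : ℝ :=
  2 / Real.log (16 / 9) * Real.log m
    + x * (Real.log 2 * Real.sqrt (2 * Real.log m / Real.log (4 / 3) ^ 3))

/-- the distribution function of the standard normal law -/
noncomputable def Phi (x : ℝ) : ℝ :=
  ProbabilityTheory.cdf (ProbabilityTheory.gaussianReal 0 1) x

/-- the height of `m` is finite, at most `bound x m` and congruent to `b` modulo `q` -/
def Level (q : ℕ) (b : ℤ) (x : ℝ) (m : ℕ) : Prop :=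
  ∃ h : ℕ, height m = h ∧ (h : ℝ) ≤ bound x m ∧ (h : ℤ) ≡ b [ZMOD q]

open scoped Classical in
/-- the indicator function of the property `P`, as a weight -/
noncomputable def ind (P : ℕ → Prop) : ℕ → ℕ → ℝ := fun _ n => if P n then 1 else 0

/-- SHORT AVERAGES. For every `ε > 0` there is a length `J` such that the averages of `g` over the windows
`[k, k + J)` differ from `c` by at most `ε` on the average over `k < K`, for all large `K`. -/
def ShortAverages (g : ℕ → ℝ) (c : ℝ) : Prop :=
  ∀ ε : ℝ, 0 < ε → ∃ J : ℕ, 1 ≤ J ∧ ∀ᶠ K : ℕ in atTop,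
    (∑ k ∈ range K, |(∑ j ∈ range J, g (k + j)) / J - c|) ≤ ε * K

/-- The weights `W` are asymptotically independent, with the mean value `V`, of all bounded sequences with
short averages: the mean over the odd integers `2 k + 1 < 2 K` of `W (2 K) (2 k + 1) * g k` tends to
`V * c`. -/
def IndependentOfSequences (W : ℕ → ℕ → ℝ) (V : ℝ) : Prop :=
  ∀ (g : ℕ → ℝ) (c M : ℝ), (∀ k, |g k| ≤ M) → ShortAverages g c →
    Tendsto (fun K : ℕ => (∑ k ∈ range K, W (2 * K) (2 * k + 1) * g k) / K) atTop (𝓝 (V * c))

/-- The point `x` is generic for the measure `μ` under the map `S`. -/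
def Generic {X : Type} [TopologicalSpace X] [MeasurableSpace X] (S : X → X) (μ : Measure X) (x : X) :
    Prop :=
  ∀ f : X →ᵇ ℝ, Tendsto (fun K : ℕ => (∑ k ∈ range K, f (S^[k] x)) / K) atTop (𝓝 (∫ y, f y ∂μ))

open scoped Classical in
/-- The weights `W` are asymptotically independent, with the mean value `V`, of all ergodic systems: for
every continuous map `S` of a metric space, every ergodic probability measure `μ` and every generic point
`x` of `μ`, the mean over the odd integers `2 k + 1 < 2 K` of `W (2 K) (2 k + 1) * f (S ^ k x)` tends to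
`V * ∫ f dμ` for every bounded continuous `f`, and the mean of `W (2 K) (2 k + 1)`, restricted to the `k`
with `S ^ k x ∈ A`, tends to `V * μ(A)` for every set `A` whose boundary is a null set. -/
def IndependentOfErgodicSystems (W : ℕ → ℕ → ℝ) (V : ℝ) : Prop :=
  ∀ (X : Type) [MetricSpace X] [MeasurableSpace X] [BorelSpace X] (S : X → X) (μ : Measure X)
    [IsProbabilityMeasure μ] (x : X), Continuous S → Ergodic S μ → Generic S μ x →
    (∀ f : X →ᵇ ℝ, Tendsto (fun K : ℕ =>
      (∑ k ∈ range K, W (2 * K) (2 * k + 1) * f (S^[k] x)) / K) atTop (𝓝 (V * ∫ y, f y ∂μ))) ∧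
    ∀ A : Set X, μ (frontier A) = 0 → Tendsto (fun K : ℕ =>
      (∑ k ∈ (range K).filter (fun k => S^[k] x ∈ A), W (2 * K) (2 * k + 1)) / K) atTop
        (𝓝 (V * μ.real A))

/-- both properties -/
def Independent (W : ℕ → ℕ → ℝ) (V : ℝ) : Prop :=
  IndependentOfSequences W V ∧ IndependentOfErgodicSystems W V

section proof

open Pool.Agent.L0h63.EH (mn Inv)

theorem ind_nonneg (P : ℕ → Prop) (N n : ℕ) : 0 ≤ ind P N n := by
  unfold ind
  split_ifs <;> norm_num

theorem ind_le (P : ℕ → Prop) (N n : ℕ) : ind P N n ≤ 1 := by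
  unfold ind
  split_ifs <;> norm_num

theorem independent {W : ℕ → ℕ → ℝ} {V B : ℝ} (hW : ∀ N n, 0 ≤ W N n)
    (hB : ∀ N n, 2 ≤ N → W N n ≤ B) (hinv : Inv W) (hV : Tendsto (mn W) atTop (𝓝 V)) :
    Independent W V := by
  have h1 : IndependentOfSequences W V := by
    intro g c M hM hg
    refine Pool.Agent.L0h63.EH.weight (w := fun K k => W (2 * K) (2 * k + 1)) (B := B)
      (fun K k hK => ?_) hinv hV hM hg
    rw [abs_of_nonneg (hW _ _)]
    exact hB _ _ (by omega)
  refine ⟨h1, ?_⟩
  intro X _ _ _ S μ _ x hc hS hx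
  have h2 : ∀ f : X →ᵇ ℝ, Tendsto (fun K : ℕ =>
      (∑ k ∈ range K, W (2 * K) (2 * k + 1) * f (S^[k] x)) / K) atTop (𝓝 (V * ∫ y, f y ∂μ)) := by
    intro f
    refine h1 (fun k => f (S^[k] x)) _ ‖f‖ (fun k => f.norm_coe_le_norm _) ?_
    intro ε hε
    exact Pool.Agent.L0h63.EH.short hc hS hx f hε
  exact ⟨h2, fun A hA => Pool.Agent.L0h63.EH.sets (x := fun k => S^[k] x)
    (w := fun K k => W (2 * K) (2 * k + 1)) (fun _ _ => hW _ _) h2 hA⟩

theorem ind_top {δ : ℝ} (h : HasOddDensity (fun m => height m ≠ ⊤) δ) :
    Tendsto (mn (ind fun m => height m = ⊤)) atTop (𝓝 (1 - δ)) := by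
  classical
  have h1 := (Pool.Agent.L0h63.EH.odd_avg (P := fun m => height m ≠ ⊤) h).const_sub 1
  refine h1.congr' ?_
  filter_upwards [eventually_ge_atTop 1] with K hK
  have hK0 : (0 : ℝ) < K := by exact_mod_cast hK
  have e : ∀ A : ℝ, 1 - A / K = ((∑ _k ∈ range K, (1 : ℝ)) - A) / K := by
    intro A
    rw [Finset.sum_const, card_range, nsmul_eq_mul, mul_one, sub_div, div_self hK0.ne']
  unfold mn
  rw [e, ← Finset.sum_sub_distrib]
  congr 1
  refine Finset.sum_congr rfl fun k _ => ?_
  unfold ind Pool.Agent.L0h63.EH.ind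
  by_cases h2 : height (2 * k + 1) = ⊤ <;> simp [h2]

end proof

/-- THE HEIGHTS ARE INDEPENDENT OF ALL ERGODIC SYSTEMS. Let `δ > 0` be the natural density of the finite
heights among the odd positive integers (`δ = 1` if and only if all heights are finite). The following
weights on the odd integers are asymptotically independent of all bounded sequences with short averages
and of all orbits which are generic for an ergodic measure:
(1) the indicator function of the `m` with infinite height, with the mean value `1 - δ`;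
(2) the indicator function of the `m` with
`h(m) ≤ 2 / log (16/9) log m + x log 2 √(2 log m / (log (4/3))^3)` and `h(m) ≡ b` modulo `q`, with the mean
value `δ Φ(x) / q`;
(3) for `Λ > 2 / log (16/9)` the truncated heights `min(h(m), ⌊Λ log N⌋) / log N`, `N = 2 K`, with the mean
value `2 δ / log (16/9) + (1 - δ) Λ`.
Examples of sequences with short averages `0`: (4) `cos (2 π (α k + β))` if `α` is not an integer;
(5) `(-1) ^ s(2 k + 1)`, `s` the number of the binary digits `1`. -/
theorem result : ∃ δ : ℝ, 0 < δ ∧ δ ≤ 1 ∧ (δ = 1 ↔ ∀ m : ℕ, Odd m → height m ≠ ⊤) ∧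
    HasOddDensity (fun m => height m ≠ ⊤) δ ∧
    Independent (ind fun m => height m = ⊤) (1 - δ) ∧
    (∀ (q : ℕ) (b : ℤ) (x : ℝ), 1 ≤ q → Independent (ind (Level q b x)) (δ * Phi x / q)) ∧
    (∀ Λ : ℝ, 2 / Real.log (16 / 9) < Λ →
      Independent (fun N m => (truncHeight m ⌊Λ * Real.log N⌋₊ : ℝ) / Real.log N)
        (δ * (2 / Real.log (16 / 9)) + (1 - δ) * Λ)) ∧
    (∀ α β : ℝ, (∀ z : ℤ, α ≠ z) →
      ShortAverages (fun k : ℕ => Real.cos (2 * Real.pi * (α * k + β))) 0) ∧
    ShortAverages (fun k : ℕ => (-1) ^ (Nat.digits 2 (2 * k + 1)).sum) 0 := by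
  classical
  obtain ⟨δ, h0, h1, h2, h3, h4⟩ := Pool.Agent.Results.MP_2b866c_nt.HeightLaw.result
  refine ⟨δ, h0, h1, h2, h3, ?_, fun q b x hq => ?_, fun Λ hΛ => ?_,
    fun α β hα => Pool.Agent.L0h63.EH.short_cos hα β, Pool.Agent.L0h63.EH.short_tm⟩
  · refine independent (B := 1) (fun N n => ind_nonneg _ N n) (fun N n _ => ind_le _ N n) ?_
      (ind_top h3)
    refine Pool.Agent.L0h63.EH.inv_of (B := 1) (fun N n _ => ⟨ind_nonneg _ N n, ind_le _ N n⟩)
      fun j N n hg => ?_
    have h : height (n + 2 * j) = height n := hg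
    unfold ind
    by_cases hh : height n = ⊤
    · rw [if_pos hh, if_pos (h.trans hh)]
    · rw [if_neg hh, if_neg fun h' => hh (h.symm.trans h')]
  · have hL : ∀ y, Pool.Agent.Results.MP_2b866c_nt.HeightLaw.HasOddDensity
        (Pool.Agent.L0h63.EH.Level q b y) (δ * Pool.Agent.Results.MP_2b866c_nt.HeightLaw.Phi y / q) :=
      fun y => (h4 q b hq).2 y
    exact independent (B := 1) (fun N n => ind_nonneg _ N n) (fun N n _ => ind_le _ N n)
      (Pool.Agent.L0h63.EH.inv_level hL x)
      (Pool.Agent.L0h63.EH.odd_avg (hL x))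
  · have hΛ0 : 0 ≤ Λ := by
      have h169 : 0 < Real.log (16 / 9) := Real.log_pos (by norm_num)
      have : 0 < 2 / Real.log (16 / 9) := by positivity
      linarith
    exact independent (B := Λ) (fun N n => div_nonneg (Nat.cast_nonneg _) (Real.log_natCast_nonneg _))
      (fun N n hN => (Pool.Agent.L0h63.EH.tr_bd hΛ0 N n hN).2) (Pool.Agent.L0h63.EH.tr_inv hΛ0)
      (Pool.Agent.L0h63.EH.tr_avg h3 hΛ)

end Pool.Agent.Results.MP_2b866c_nt.ErgodicSystems
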