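import Pool.Agent.L0h63.CR.RL6

set_option autoImplicit false

/-! The length of the runs of equal heights under the `3x+1` map, and the oscillation of the heights.

Author: helper63. -/

namespace Pool.Agent.Results.MP_2b866c_nt.RunLengths

open Filter Topology

/-- `C(m) = (3m+1)/2^e(m)`, `2^e(m)` the largest power of `2` dividing `3m+1` -/
def C (m : ℕ) : ℕ := (3 * m + 1) / 2 ^ padicValNat 2 (3 * m + 1)

/-- the height `h(m)`, the least `k ≥ 1` with `C^k(m) = 1`, and `⊤ = ∞` if there is none -/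
noncomputable def height (m : ℕ) : ℕ∞ := sInf {k : ℕ∞ | ∃ j : ℕ, 1 ≤ j ∧ C^[j] m = 1 ∧ k = j}

/-- among the odd positive integers, those with the property `P` have the natural density `δ` -/
def HasOddDensity (P : ℕ → Prop) (δ : ℝ) : Prop :=
  Tendsto (fun N : ℕ => 2 / (N : ℝ) * ({m : ℕ | m ≤ N ∧ Odd m ∧ P m}.ncard : ℝ)) atTop (𝓝 δ)

/-- the upper limit for `N → ∞` of the proportion of the odd `n ≤ N` with the property `P N n` is at most `v` -/
def UpperDensityLe (P : ℕ → ℕ → Prop) (v : ℝ) : Prop :=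
  ∀ ε > (0 : ℝ), ∀ᶠ N : ℕ in atTop, 2 / (N : ℝ) * ({n : ℕ | n ≤ N ∧ Odd n ∧ P N n}.ncard : ℝ) ≤ v + ε

/-- the distribution function of the standard normal law -/
noncomputable def Phi (x : ℝ) : ℝ :=
  ProbabilityTheory.cdf (ProbabilityTheory.gaussianReal 0 1) x

/-- the scale `√ (log n) / (log log n) ^ 16` -/
noncomputable def κ (n : ℕ) : ℝ := √ (Real.log n) / (Real.log (Real.log n)) ^ 16

/-- `m` is an odd integer with `|m - n| ≤ r`, on the right of `n` (`s = true`) or on the left of `n`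
(`s = false`) -/
def Near (s : Bool) (r : ℝ) (n m : ℕ) : Prop :=
  Odd m ∧ |(m : ℝ) - n| ≤ r ∧ (if s = true then n ≤ m else m ≤ n)

/-- `h(n)` is finite and the height is constant on the window of length `r` on the side `s` of `n` -/
def Const (s : Bool) (r : ℝ) (n : ℕ) : Prop :=
  height n ≠ ⊤ ∧ ∀ m : ℕ, Near s r n m → height m = height n

/-- `h(n)` is finite and all heights in the window of length `r` on the side `s` of `n` are finite and
at least `h(n) - d` -/
def Low (s : Bool) (r d : ℝ) (n : ℕ) : Prop :=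
  ∃ h : ℕ, height n = h ∧ ∀ m : ℕ, Near s r n m → ∃ h' : ℕ, height m = h' ∧ (h : ℝ) ≤ h' + d

open Pool.Agent.L0h63.CR in
theorem of_oc {P : ℕ → ℕ → Prop} {v : ℝ}
    (h : ∀ ε > (0 : ℝ), ∀ᶠ N : ℕ in atTop, 2 / (N : ℝ) * (oc (P N) N : ℝ) ≤ v + ε) : UpperDensityLe P v := by
  unfold UpperDensityLe
  simpa only [oc_eq] using h

theorem near_true {r : ℝ} {n m : ℕ} : Near true r n m ↔ Odd m ∧ n ≤ m ∧ (m : ℝ) ≤ n + r := by
  unfold Near
  rw [if_pos rfl]
  constructor
  · rintro ⟨h1, h2, h3⟩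
    exact ⟨h1, h3, by linarith [(abs_le.1 h2).2]⟩
  · rintro ⟨h1, h2, h3⟩
    have h4 : (n : ℝ) ≤ m := by exact_mod_cast h2
    exact ⟨h1, by rw [abs_of_nonneg (by linarith)]; linarith, h2⟩

theorem near_false {r : ℝ} {n m : ℕ} : Near false r n m ↔ Odd m ∧ m ≤ n ∧ (n : ℝ) ≤ m + r := by
  unfold Near
  rw [if_neg (by decide)]
  constructor
  · rintro ⟨h1, h2, h3⟩
    exact ⟨h1, h3, by linarith [(abs_le.1 h2).1]⟩
  · rintro ⟨h1, h2, h3⟩
    have h4 : (m : ℝ) ≤ n := by exact_mod_cast h2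
    exact ⟨h1, by rw [abs_of_nonpos (by linarith)]; linarith, h2⟩

open Pool.Agent.L0h63.CR in
theorem const_true {g : ℕ → ℝ} {n : ℕ} : Const true (Real.exp (g n)) n ↔ RR g n := by
  constructor
  · rintro ⟨h1, h2⟩
    exact ⟨h1, fun m hm h3 h4 => h2 m (near_true.2 ⟨hm, h3, h4⟩)⟩
  · rintro ⟨h1, h2⟩
    exact ⟨h1, fun m hm => h2 m (near_true.1 hm).1 (near_true.1 hm).2.1 (near_true.1 hm).2.2⟩

open Pool.Agent.L0h63.CR in
theorem const_false {g : ℕ → ℝ} {n : ℕ} : Const false (Real.exp (g n)) n ↔ RL g n := by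
  constructor
  · rintro ⟨h1, h2⟩
    exact ⟨h1, fun m hm h3 h4 => h2 m (near_false.2 ⟨hm, h3, h4⟩)⟩
  · rintro ⟨h1, h2⟩
    exact ⟨h1, fun m hm => h2 m (near_false.1 hm).1 (near_false.1 hm).2.1 (near_false.1 hm).2.2⟩

open Pool.Agent.L0h63.CR in
theorem low_side {δ : ℝ} (hF : HasOddDensity (fun m => height m ≠ ⊤) δ)
    (hL : ∀ x, HasOddDensity (L x) (δ * Phi x)) (s : Bool) {x : ℝ} {G D : ℕ → ℝ} (W : Win G D x) :
    UpperDensityLe (fun N n => Low s (Real.exp (G N)) (D N) n) (2 * δ * Phi (-x)) := by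
  cases s
  · refine of_oc fun ε hε => (main_left W hF hL hε).mono fun N hN => ?_
    refine le_trans (mul_le_mul_of_nonneg_left (Nat.cast_le.2 (oc_mono ?_)) (by positivity)) hN
    rintro n - - ⟨h, h1, h2⟩
    exact ⟨h, h1, fun m hm h3 h4 => h2 m (near_false.2 ⟨hm, h3, h4⟩)⟩
  · refine of_oc fun ε hε => (main_right W hF hL hε).mono fun N hN => ?_
    refine le_trans (mul_le_mul_of_nonneg_left (Nat.cast_le.2 (oc_mono ?_)) (by positivity)) hN
    rintro n - - ⟨h, h1, h2⟩
    exact ⟨h, h1, fun m hm h3 h4 => h2 m (near_true.2 ⟨hm, h3, h4⟩)⟩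

open Pool.Agent.L0h63.CR in
theorem const_side {δ : ℝ} (hF : HasOddDensity (fun m => height m ≠ ⊤) δ)
    (hL : ∀ x, HasOddDensity (L x) (δ * Phi x)) (s : Bool) {u : ℝ} (hu : 0 < u) :
    UpperDensityLe (fun _ n => Const s (Real.exp (u * √ (Real.log n))) n)
      (2 * δ * Phi (-(u * (√ (Real.log (4 / 3) / 8) / Real.log 2)))) := by
  cases s
  · refine of_oc ?_
    have h := boundary (δ := δ) hu (R := RL fun n => u * √ (Real.log n)) fun x hx hux =>
      run_left hF hL hu.le (Eventually.of_forall fun n => le_rfl) hx hux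
    intro ε hε
    refine (h ε hε).mono fun N hN => ?_
    refine le_trans (mul_le_mul_of_nonneg_left (Nat.cast_le.2 (oc_mono ?_)) (by positivity)) hN
    intro n _ _ hn
    exact const_false.1 hn
  · refine of_oc ?_
    have h := boundary (δ := δ) hu (R := RR fun n => u * √ (Real.log n)) fun x hx hux =>
      run_right hF hL hu.le (Eventually.of_forall fun n => le_rfl) hx hux
    intro ε hε
    refine (h ε hε).mono fun N hN => ?_
    refine le_trans (mul_le_mul_of_nonneg_left (Nat.cast_le.2 (oc_mono ?_)) (by positivity)) hN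
    intro n _ _ hn
    exact const_true.1 hn

/-- **The length of the runs of equal heights.** There is a density `δ > 0` (of the odd integers of
finite height) such that

1. for every function `g` with `g(n) / √ (log n) → ∞`, for almost all odd `n` of finite height the height
is constant on the odd integers at distance at most `exp (√ (log n) / (log log n) ^ 16)` from `n`, but not
on those at distance at most `exp (g n)` on the right of `n`, nor on those on the left of `n`;
2. for `u > 0` the upper density of the odd `n` such that the height is finite and constant on the window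
of length `exp (u √ (log n))` on one side of `n` is at most `2 δ Φ(-λ u)`, `λ = √ (log (4/3) / 8) / log 2`;
3. if `0 ≤ μ < 2 / log (16/9)`, `G N / √ (log N) → ∞` and `log N - G N → ∞`, then, for almost all odd
`n ≤ N` of finite height, not all heights in the window of length `exp (G N)` on one side of `n` are finite and at
least `h(n) - μ * G N`. -/
theorem result : ∃ δ : ℝ, 0 < δ ∧ δ ≤ 1 ∧ HasOddDensity (fun n => height n ≠ ⊤) δ ∧
    (∀ g : ℕ → ℝ, Tendsto (fun n : ℕ => g n / √ (Real.log n)) atTop atTop →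
      HasOddDensity (fun n => Const true (Real.exp (κ n)) n ∧ Const false (Real.exp (κ n)) n ∧
        ¬ Const true (Real.exp (g n)) n ∧ ¬ Const false (Real.exp (g n)) n) δ) ∧
    ∀ s : Bool,
      (∀ u : ℝ, 0 < u → UpperDensityLe (fun _ n => Const s (Real.exp (u * √ (Real.log n))) n)
        (2 * δ * Phi (-(u * (√ (Real.log (4 / 3) / 8) / Real.log 2))))) ∧
      ∀ (μ : ℝ) (G : ℕ → ℝ), 0 ≤ μ → μ < 2 / Real.log (16 / 9) →
        Tendsto (fun N : ℕ => Real.log N - G N) atTop atTop →
        Tendsto (fun N : ℕ => G N / √ (Real.log N)) atTop atTop →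
        UpperDensityLe (fun N n => Low s (Real.exp (G N)) (μ * G N) n) 0 := by
  obtain ⟨δ, h0, h1, hF, hL⟩ := Pool.Agent.L0h63.CR.law
  refine ⟨δ, h0, h1, hF, fun g hg => ?_, fun s => ⟨fun u hu => const_side hF hL s hu,
    fun μ G hμ hμc hs hG => ?_⟩⟩
  · have h2 := Pool.Agent.L0h63.CR.runs hF hL hg
    unfold HasOddDensity
    refine h2.congr fun N => ?_
    congr 3
    ext n
    constructor
    · rintro ⟨k1, k2, k3, k4, k5, k6⟩
      refine ⟨k1, k2, ⟨k3, fun m hm => k4 m hm.1 hm.2.1⟩, ⟨k3, fun m hm => k4 m hm.1 hm.2.1⟩,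
        fun h => k5 (const_true.1 h), fun h => k6 (const_false.1 h)⟩
    · rintro ⟨k1, k2, k3, k4, k5, k6⟩
      refine ⟨k1, k2, k3.1, fun m hm hmn => ?_, fun h => k5 (const_true.2 h), fun h => k6 (const_false.2 h)⟩
      rcases le_total n m with h | h
      · exact k3.2 m ⟨hm, hmn, by rw [if_pos rfl]; exact h⟩
      · exact k4.2 m ⟨hm, hmn, by rw [if_neg (by decide)]; exact h⟩
  · have hW : ∀ x : ℝ, 0 ≤ x → Pool.Agent.L0h63.CR.Win G (fun N => max (μ * G N) 0) x := by
      intro x hx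
      refine ⟨hx, fun N => le_max_right _ _, ?_, hs⟩
      have e1 : Tendsto (fun N : ℕ => √(Real.log N) * ((2 / Real.log (16 / 9) - μ) * (G N / √(Real.log N)) -
          2 * x * Pool.Agent.L0h63.CR.s₀ 1)) atTop atTop :=
        Pool.Agent.L0h63.CR.tendsto_sqrt_log.atTop_mul_atTop₀
          (tendsto_atTop_add_const_right _ _ (hG.const_mul_atTop (by linarith)))
      refine e1.congr' ?_
      filter_upwards [hG.eventually_ge_atTop 0, Pool.Agent.L0h63.CR.tendsto_sqrt_log.eventually_gt_atTop 0,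
        Pool.Agent.L0h63.CR.tendsto_log_nat.eventually_ge_atTop 0] with N e2 e3 e4
      have e5 : 0 ≤ G N := by
        have := mul_nonneg e2 e3.le
        rwa [div_mul_cancel₀ _ e3.ne'] at this
      rw [max_eq_left (mul_nonneg hμ e5), Pool.Agent.L0h63.CR.s₀_eq e4]
      unfold Pool.Agent.L0h63.CR.c₀
      field_simp
    have hz : Tendsto (fun x : ℝ => 2 * δ * Phi (-x)) atTop (𝓝 0) := by
      have h2 : Tendsto Phi atTop (𝓝 1) := ProbabilityTheory.tendsto_cdf_atTop _
      have h3 := (h2.const_sub 1).const_mul (2 * δ)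
      rw [sub_self, mul_zero] at h3
      refine h3.congr fun x => ?_
      congr 1
      exact (Pool.Agent.L0h63.CR.Phi_neg x).symm
    intro ε hε
    obtain ⟨x, hx1, hx2⟩ := ((hz.eventually_lt_const (show (0 : ℝ) < ε / 2 by linarith)).and
      (eventually_ge_atTop (0 : ℝ))).exists
    filter_upwards [low_side hF hL s (hW x hx2) (ε / 2) (by linarith)] with N hN
    have h3 : 2 / (N : ℝ) * ({n : ℕ | n ≤ N ∧ Odd n ∧ Low s (Real.exp (G N)) (μ * G N) n}.ncard : ℝ) ≤
        2 / (N : ℝ) * ({n : ℕ | n ≤ N ∧ Odd n ∧ Low s (Real.exp (G N)) (max (μ * G N) 0) n}.ncard : ℝ) := by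
      refine mul_le_mul_of_nonneg_left ?_ (by positivity)
      rw [Pool.Agent.L0h63.CR.oc_eq, Pool.Agent.L0h63.CR.oc_eq]
      refine Nat.cast_le.2 (Pool.Agent.L0h63.CR.oc_mono ?_)
      rintro n - - ⟨h, k1, k2⟩
      refine ⟨h, k1, fun m hm => ?_⟩
      obtain ⟨h', k3, k4⟩ := k2 m hm
      exact ⟨h', k3, k4.trans (by linarith [le_max_left (μ * G N) 0])⟩
    linarith

end Pool.Agent.Results.MP_2b866c_nt.RunLengths
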